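import Mathlib

set_option linter.style.haveILetI false

/-!
# Emb: derivations of a field over a subfield of characteristic zero

* `exists_derivation`: derivations with prescribed values on a transcendence basis;
* `exists_der`: derivations with prescribed values on an algebraically independent family;
* `der_eval`: the chain rule;
* `exists_indep`: algebraically independent complex numbers over a countable subfield.
-/

namespace Pool.Agent.Work.Emb

open MvPolynomial TensorProduct

section der

variable {k : Type} [Field k] [CharZero k]

open scoped IntermediateField.algebraAdjoinAdjoin in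
/-- a field is formally étale over the polynomial ring in a transcendence basis -/
theorem ext_etale {K : Type} [Field K] [Algebra k K] {ι : Type} {z : ι → K}
    (hz : IsTranscendenceBasis k z) [alg : Algebra (MvPolynomial ι k) K]
    (hal : ∀ p, algebraMap (MvPolynomial ι k) K p = aeval z p) :
    Algebra.FormallyEtale (MvPolynomial ι k) K := by
  set S := MvPolynomial ι k
  let A := Algebra.adjoin k (Set.range z)
  let L := IntermediateField.adjoin k (Set.range z)
  letI a1 : Algebra S A := (hz.1.aevalEquiv : S ≃ₐ[k] A).toAlgHom.toRingHom.toAlgebra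
  have h1 : Algebra.FormallyEtale S A := by
    let e : S ≃ₐ[S] A := { hz.1.aevalEquiv with commutes' := fun s => rfl }
    exact Algebra.FormallyEtale.of_equiv e
  have h2 : Algebra.FormallyEtale A L := .of_isLocalization (nonZeroDivisors _)
  have halg : Algebra.IsAlgebraic L K := hz.isAlgebraic_field
  have hch : CharZero L := charZero_of_injective_algebraMap (algebraMap k L).injective
  have h3 : Algebra.FormallyEtale L K := Algebra.FormallyEtale.of_isSeparable _ K
  letI a2 : Algebra S L := ((algebraMap A L).comp (algebraMap S A)).toAlgebra
  haveI : IsScalarTower S A L := IsScalarTower.of_algebraMap_eq' rfl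
  have h4 : Algebra.FormallyEtale S L := .comp S A L
  haveI : IsScalarTower S L K := by
    refine IsScalarTower.of_algebraMap_eq fun p => ?_
    rw [hal p]
    change aeval z p = ((hz.1.aevalEquiv p : A) : K)
    rw [AlgebraicIndependent.aevalEquiv_apply_coe]
  exact .comp S L K

/-- existence of a derivation with prescribed values on a transcendence basis. -/
theorem exists_derivation {K : Type} [Field K] [Algebra k K] {ι : Type} {z : ι → K}
    (hz : IsTranscendenceBasis k z)
    (g : ι → K) : ∃ D : Derivation k K K, ∀ i, D (z i) = g i := by
  classical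
  letI alg : Algebra (MvPolynomial ι k) K :=
    (aeval z : MvPolynomial ι k →ₐ[k] K).toRingHom.toAlgebra
  have hal : ∀ p, algebraMap (MvPolynomial ι k) K p = aeval z p := fun p => rfl
  haveI t1 : IsScalarTower k (MvPolynomial ι k) K := by
    refine IsScalarTower.of_algebraMap_eq fun c => ?_
    rw [hal, MvPolynomial.algebraMap_eq, aeval_C]
  haveI het : Algebra.FormallyEtale (MvPolynomial ι k) K := ext_etale hz hal
  let d : Derivation k (MvPolynomial ι k) K := MvPolynomial.mkDerivation k g
  let l2 : K ⊗[MvPolynomial ι k] (Ω[MvPolynomial ι k⁄k]) →ₗ[K] K :=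
    LinearMap.liftBaseChange K d.liftKaehlerDifferential
  let e := KaehlerDifferential.tensorKaehlerEquivOfFormallyEtale k (MvPolynomial ι k) K
  refine ⟨(l2.comp e.symm.toLinearMap).compDer (KaehlerDifferential.D k K), fun i => ?_⟩
  have h1 : z i = algebraMap (MvPolynomial ι k) K (X i) := by rw [hal, aeval_X]
  change l2 (e.symm.toLinearMap (KaehlerDifferential.D k K (z i))) = g i
  rw [h1]
  have h2 : e.symm.toLinearMap (KaehlerDifferential.D k K (algebraMap (MvPolynomial ι k) K (X i))) =
      (1 : K) ⊗ₜ[MvPolynomial ι k] KaehlerDifferential.D k (MvPolynomial ι k) (X i) :=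
    KaehlerDifferential.tensorKaehlerEquivOfFormallyEtale_symm_D_algebraMap k
      (MvPolynomial ι k) K (X i)
  rw [h2]
  change (LinearMap.liftBaseChange K d.liftKaehlerDifferential) _ = _
  rw [LinearMap.liftBaseChange_tmul, one_smul, Derivation.liftKaehlerDifferential_comp_D]
  exact MvPolynomial.mkDerivation_X k g i

/-- derivations with prescribed values on an algebraically independent family -/
theorem exists_der {K : Type} [Field K] [Algebra k K] {ι : Type} {z : ι → K}
    (hz : AlgebraicIndependent k z) (g : ι → K) :
    ∃ D : Derivation k K K, ∀ i, D (z i) = g i := by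
  classical
  obtain ⟨s, hs, hsb⟩ := exists_isTranscendenceBasis_superset (R := k)
    ((AlgebraicIndependent.coe_range hz : AlgebraicIndepOn k id (Set.range z)))
  obtain ⟨D, hD⟩ := exists_derivation hsb
    (fun u : s => if h : ∃ i, z i = (u : K) then g h.choose else 0)
  refine ⟨D, fun i => ?_⟩
  have h1 := hD ⟨z i, hs ⟨i, rfl⟩⟩
  have h2 : ∃ j, z j = z i := ⟨i, rfl⟩
  have h3 : h2.choose = i := hz.injective h2.choose_spec
  rw [dif_pos h2, h3] at h1
  exact h1

end der

/-- the chain rule -/
theorem der_eval {k A : Type} [CommRing k] [CommRing A] [Algebra k A] (D : Derivation k A A)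
    {σ : Type} [Fintype σ] (a : σ → A) (p : MvPolynomial σ k) :
    D (aeval a p) = ∑ s, aeval a (pderiv s p) * D (a s) := by
  classical
  induction p using MvPolynomial.induction_on with
  | C c =>
    rw [aeval_C, Derivation.map_algebraMap]
    refine (Finset.sum_eq_zero fun s _ => ?_).symm
    rw [pderiv_C, map_zero, zero_mul]
  | add p q hp hq =>
    rw [map_add, map_add, hp, hq, ← Finset.sum_add_distrib]
    refine Finset.sum_congr rfl fun s _ => ?_
    rw [map_add, map_add, add_mul]
  | mul_X p i hp =>
    rw [map_mul, Derivation.leibniz, hp, aeval_X]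
    simp only [smul_eq_mul, Derivation.leibniz, map_add, map_mul, aeval_X, pderiv_X, add_mul,
      Finset.sum_add_distrib]
    rw [Finset.mul_sum]
    congr 1
    · rw [Finset.sum_eq_single i]
      · simp
      · intro j _ hj
        simp [hj.symm]
      · simp
    · refine Finset.sum_congr rfl fun s _ => ?_
      ring

/-- algebraically independent complex numbers over a countable subfield -/
theorem exists_indep (k : Subfield ℂ) (hk : Cardinal.mk k ≤ Cardinal.aleph0) (ι : Type) [Finite ι] :
    ∃ c : ι → ℂ, AlgebraicIndependent k c := by
  classical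
  obtain ⟨s, hs⟩ := exists_isTranscendenceBasis k ℂ
  have h1 := IsAlgClosed.cardinal_eq_cardinal_transcendence_basis_of_aleph0_lt' _ hs hk
    (by rw [Cardinal.mk_complex]; exact Cardinal.aleph0_lt_continuum)
  have h2 : Infinite s := by
    rw [Cardinal.infinite_iff, ← h1, Cardinal.mk_complex]
    exact Cardinal.aleph0_lt_continuum.le
  obtain ⟨m, ⟨e⟩⟩ := Finite.exists_equiv_fin ι
  let j : ι → s := fun i => Infinite.natEmbedding s (e i)
  have hj : Function.Injective j := fun a b h => by
    have := (Infinite.natEmbedding s).injective h
    exact e.injective (Fin.val_injective this)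
  exact ⟨_, hs.1.comp j hj⟩

end Pool.Agent.Work.Emb
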