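import Mathlib
import Pool.Agent.Work.MP_4329d7_ag_emb.DerK
import Pool.Agent.Work.MP_4329d7_ag_snc.Defs

/-!
# Emb: generic frames

For a simple normal crossing divisor `⋃ {F e = 0}` in a product of projective spaces there are
linear changes of the coordinates such that the divisor together with all coordinate hyperplanes
has simple normal crossings.
-/

namespace Pool.Agent.Work.Emb

open MvPolynomial Pool.Agent.Work.Snc

variable {I : Type} {n : I → ℕ}

/-- the linear change of coordinates with the matrices `B` -/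
noncomputable def lch {R : Type} [CommRing R] [Algebra ℂ R]
    (B : (i : I) → Matrix (Fin (n i + 1)) (Fin (n i + 1)) ℂ) (P : Co I n → R) : Co I n → R :=
  fun s => ∑ j, algebraMap ℂ R (B s.1 s.2 j) * P ⟨s.1, j⟩

/-- the form in the new coordinates -/
noncomputable def tr (B : (i : I) → Matrix (Fin (n i + 1)) (Fin (n i + 1)) ℂ)
    (F : MvPolynomial (Co I n) ℂ) : MvPolynomial (Co I n) ℂ :=
  aeval (lch B X) F

theorem aeval_lch {R : Type} [CommRing R] [Algebra ℂ R]
    (B : (i : I) → Matrix (Fin (n i + 1)) (Fin (n i + 1)) ℂ) (P : Co I n → R) (s : Co I n) :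
    aeval P (lch B (X : Co I n → MvPolynomial (Co I n) ℂ) s) = lch B P s := by
  unfold lch
  rw [map_sum]
  refine Finset.sum_congr rfl fun j _ => ?_
  rw [map_mul, aeval_X, AlgHom.commutes]

theorem aeval_tr {R : Type} [CommRing R] [Algebra ℂ R]
    (B : (i : I) → Matrix (Fin (n i + 1)) (Fin (n i + 1)) ℂ) (F : MvPolynomial (Co I n) ℂ)
    (P : Co I n → R) : aeval P (tr B F) = aeval (lch B P) F := by
  have h1 : (aeval P).comp (aeval (lch B X)) =
      (aeval (lch B P) : MvPolynomial (Co I n) ℂ →ₐ[ℂ] R) := by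
    refine MvPolynomial.algHom_ext fun s => ?_
    rw [AlgHom.comp_apply, aeval_X, aeval_X, aeval_lch]
  exact congrArg (fun g => g F) h1

/-- the chain rule -/
theorem sum_pderiv_tr [Fintype I] {R : Type} [CommRing R] [Algebra ℂ R]
    (B : (i : I) → Matrix (Fin (n i + 1)) (Fin (n i + 1)) ℂ) (F : MvPolynomial (Co I n) ℂ)
    (P v : Co I n → R) :
    ∑ t, aeval P (pderiv t (tr B F)) * v t =
      ∑ s, aeval (lch B P) (pderiv s F) * lch B v s := by
  classical
  have h1 : ∀ t, aeval P (pderiv t (tr B F)) =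
      ∑ s, aeval (lch B P) (pderiv s F) *
        aeval P (pderiv t (lch B (X : Co I n → MvPolynomial (Co I n) ℂ) s)) := by
    intro t
    unfold tr
    rw [der_eval (pderiv t), map_sum]
    refine Finset.sum_congr rfl fun s _ => ?_
    have h5 : aeval P (aeval (lch B (X : Co I n → MvPolynomial (Co I n) ℂ)) (pderiv s F)) =
        aeval (lch B P) (pderiv s F) := aeval_tr B _ P
    rw [map_mul, h5]
  have h2 : ∀ s, ∑ t, aeval P (pderiv t (lch B (X : Co I n → MvPolynomial (Co I n) ℂ) s)) * v t =
      lch B v s := by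
    intro s
    unfold lch
    have h3 : ∀ t, aeval P (pderiv t (∑ j, algebraMap ℂ (MvPolynomial (Co I n) ℂ) (B s.1 s.2 j) *
        X ⟨s.1, j⟩)) * v t =
        ∑ j, algebraMap ℂ R (B s.1 s.2 j) * (if (⟨s.1, j⟩ : Co I n) = t then v t else 0) := by
      intro t
      rw [map_sum, map_sum, Finset.sum_mul]
      refine Finset.sum_congr rfl fun j _ => ?_
      rw [MvPolynomial.algebraMap_eq, pderiv_C_mul, pderiv_X, map_mul, algHom_C, mul_assoc]
      congr 1
      rw [Pi.single_apply]
      split_ifs with h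
      · rw [map_one, one_mul]
      · rw [map_zero, zero_mul]
    rw [Finset.sum_congr rfl fun t _ => h3 t, Finset.sum_comm]
    refine Finset.sum_congr rfl fun j _ => ?_
    rw [← Finset.mul_sum, Finset.sum_ite_eq]
    simp
  rw [Finset.sum_congr rfl fun t _ => by rw [h1 t, Finset.sum_mul], Finset.sum_comm]
  refine Finset.sum_congr rfl fun s _ => ?_
  rw [← h2 s, Finset.mul_sum]
  refine Finset.sum_congr rfl fun t _ => ?_
  ring

/-- The divisor `⋃ {F e = 0}` together with the coordinate hyperplanes in the coordinates given by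
`B` has simple normal crossings. -/
def GoodFrame {E : Type} [Fintype E] (B : (i : I) → Matrix (Fin (n i + 1)) (Fin (n i + 1)) ℂ)
    (F : E → MvPolynomial (Co I n) ℂ) : Prop :=
  ∀ P : Co I n → ℂ, IsPoint P → ∀ l : E → ℂ, (∀ e, aeval P (tr B (F e)) ≠ 0 → l e = 0) →
    (∀ s, P s ≠ 0 → ∑ e, l e * aeval P (pderiv s (tr B (F e))) = 0) → l = 0

theorem exists_frame [Fintype I] {E : Type} [Fintype E] (F : E → MvPolynomial (Co I n) ℂ)
    (hsnc : ∀ P : Co I n → ℂ, IsPoint P →
      LinearIndependent ℂ (fun e : {e // eval P (F e) = 0} => fun s => eval P (pderiv s (F e.1)))) :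
    ∃ B : (i : I) → Matrix (Fin (n i + 1)) (Fin (n i + 1)) ℂ, (∀ i, (B i).det ≠ 0) ∧
      GoodFrame B F := by
  classical
  -- the field of definition
  set S : Set ℂ := ⋃ e, ((F e).coeffs : Set ℂ) with hS
  let k : Subfield ℂ := Subfield.closure S
  have hk : Cardinal.mk k ≤ Cardinal.aleph0 := by
    refine (Subfield.cardinalMk_closure_le_max S).trans (max_le ?_ le_rfl)
    have : S.Countable := Set.countable_iUnion fun e => (Finset.countable_toSet _)
    exact Cardinal.le_aleph0_iff_set_countable.2 this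
  have hF : ∀ e, ∃ F' : MvPolynomial (Co I n) k, MvPolynomial.map (algebraMap k ℂ) F' = F e := by
    intro e
    refine MvPolynomial.mem_range_map_iff_coeffs_subset.2 fun c hc => ?_
    exact ⟨⟨c, Subfield.subset_closure (Set.mem_iUnion.2 ⟨e, hc⟩)⟩, rfl⟩
  choose F' hF' using hF
  obtain ⟨c, hc⟩ := exists_indep k hk (Σ i : I, Fin (n i + 1) × Fin (n i + 1))
  let B : (i : I) → Matrix (Fin (n i + 1)) (Fin (n i + 1)) ℂ := fun i a b => c ⟨i, a, b⟩
  have hdet : ∀ i, (B i).det ≠ 0 := by
    intro i
    have h1 : AlgebraicIndependent k fun p : Fin (n i + 1) × Fin (n i + 1) => B i p.1 p.2 :=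
      hc.comp (fun p : Fin (n i + 1) × Fin (n i + 1) =>
        (⟨i, p⟩ : Σ i : I, Fin (n i + 1) × Fin (n i + 1))) fun p q h =>
          eq_of_heq (Sigma.mk.inj h).2
    have h2 := Matrix.mvPolynomialX_mapMatrix_aeval k (B i)
    intro h3
    rw [← h2, ← AlgHom.map_det] at h3
    exact Matrix.det_mvPolynomialX_ne_zero (Fin (n i + 1)) k ((algebraicIndependent_iff.1 h1) _ h3)
  refine ⟨B, hdet, ?_⟩
  intro P hP l hl0 hl
  -- the point in the old coordinates
  have hQ : IsPoint (lch B P) := by
    intro i
    by_contra hno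
    push Not at hno
    obtain ⟨j₀, hj₀⟩ := hP i
    have h1 : (B i).mulVec (fun j => P ⟨i, j⟩) = 0 := by
      funext a
      exact hno a
    have h2 := Matrix.eq_zero_of_mulVec_eq_zero (hdet i) h1
    exact hj₀ (congrFun h2 j₀)
  -- evaluation
  have hev : ∀ (Q : Co I n → ℂ) (e : E), aeval Q (F' e) = aeval Q (F e) := by
    intro Q e
    rw [← hF' e, aeval_map_algebraMap]
  have hevp : ∀ (Q : Co I n → ℂ) (e : E) s,
      aeval Q (pderiv s (F' e)) = aeval Q (pderiv s (F e)) := by
    intro Q e s
    rw [← hF' e, pderiv_map, aeval_map_algebraMap]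
  -- the key equation
  have key : ∀ D : Derivation k ℂ ℂ,
      ∑ s, (∑ e, l e * aeval (lch B P) (pderiv s (F e))) *
        (∑ j, D (B s.1 s.2 j) * P ⟨s.1, j⟩) = 0 := by
    intro D
    have h1 : ∀ e, l e * ∑ s, aeval (lch B P) (pderiv s (F e)) * D (lch B P s) = 0 := by
      intro e
      by_cases he : aeval P (tr B (F e)) = 0
      · have h2 := der_eval D (lch B P) (F' e)
        rw [hev, ← aeval_tr, he, map_zero] at h2
        simp only [hevp] at h2
        rw [← h2, mul_zero]
      · rw [hl0 e he, zero_mul]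
    have h2 : ∀ s, D (lch B P s) =
        ∑ j, D (B s.1 s.2 j) * P ⟨s.1, j⟩ + lch B (fun t => D (P t)) s := by
      intro s
      unfold lch
      rw [map_sum, ← Finset.sum_add_distrib]
      refine Finset.sum_congr rfl fun j _ => ?_
      rw [Derivation.leibniz]
      simp only [Algebra.algebraMap_self, RingHom.id_apply, smul_eq_mul]
      ring
    have h3 : ∀ e, ∑ s, aeval (lch B P) (pderiv s (F e)) * lch B (fun t => D (P t)) s =
        ∑ t, aeval P (pderiv t (tr B (F e))) * D (P t) := fun e =>
      (sum_pderiv_tr B (F e) P fun t => D (P t)).symm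
    have h4 : ∑ e, l e * ∑ t, aeval P (pderiv t (tr B (F e))) * D (P t) = 0 := by
      simp only [Finset.mul_sum]
      rw [Finset.sum_comm]
      refine Finset.sum_eq_zero fun t _ => ?_
      by_cases ht : P t = 0
      · rw [ht, map_zero]
        simp
      · have h5 := hl t ht
        simp only [← mul_assoc]
        rw [← Finset.sum_mul, h5, zero_mul]
    have h5 : ∑ e, l e * ∑ s, aeval (lch B P) (pderiv s (F e)) * D (lch B P s) = 0 :=
      Finset.sum_eq_zero fun e _ => h1 e
    simp only [h2, mul_add, Finset.sum_add_distrib, h3, h4, add_zero] at h5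
    rw [← h5]
    have h6 : ∀ s, (∑ e, l e * aeval (lch B P) (pderiv s (F e))) *
        (∑ j, D (B s.1 s.2 j) * P ⟨s.1, j⟩) = ∑ e, l e * (aeval (lch B P) (pderiv s (F e)) *
          ∑ j, D (B s.1 s.2 j) * P ⟨s.1, j⟩) := by
      intro s
      rw [Finset.sum_mul]
      exact Finset.sum_congr rfl fun e _ => mul_assoc _ _ _
    rw [Finset.sum_congr rfl fun s _ => h6 s, Finset.sum_comm]
    exact Finset.sum_congr rfl fun e _ => (Finset.mul_sum _ _ _).symm
  -- all derivatives vanish
  have hall : ∀ s, ∑ e, l e * aeval (lch B P) (pderiv s (F e)) = 0 := by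
    rintro ⟨i₀, a₀⟩
    obtain ⟨j₀, hj₀⟩ := hP i₀
    obtain ⟨D, hD⟩ := exists_der hc (fun p => if p = ⟨i₀, a₀, j₀⟩ then 1 else 0)
    have h1 := key D
    rw [Finset.sum_eq_single (⟨i₀, a₀⟩ : Co I n)] at h1
    · rw [Finset.sum_eq_single j₀] at h1
      · have h2 : D (B i₀ a₀ j₀) = 1 := by
          have := hD ⟨i₀, a₀, j₀⟩
          rwa [if_pos rfl] at this
        simp only at h1
        rw [h2, one_mul] at h1
        exact (mul_eq_zero.1 h1).resolve_right hj₀
      · intro j _ hj
        have h2 : D (B i₀ a₀ j) = 0 := by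
          have := hD ⟨i₀, a₀, j⟩
          rwa [if_neg (by
            intro h
            simp only [Sigma.mk.injEq, heq_eq_eq, Prod.mk.injEq, true_and] at h
            exact hj h)] at this
        simp only
        rw [h2, zero_mul]
      · intro h
        exact absurd (Finset.mem_univ _) h
    · rintro ⟨i, a⟩ _ hne
      have h2 : ∑ j, D (B i a j) * P ⟨i, j⟩ = 0 := by
        refine Finset.sum_eq_zero fun j _ => ?_
        have h3 : D (B i a j) = 0 := by
          have := hD ⟨i, a, j⟩
          rwa [if_neg (by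
            intro h
            apply hne
            obtain ⟨rfl, h4⟩ := Sigma.mk.inj h
            have h5 := eq_of_heq h4
            rw [(Prod.mk.inj h5).1])] at this
        rw [h3, zero_mul]
      simp only
      rw [h2, mul_zero]
    · intro h
      exact absurd (Finset.mem_univ _) h
  -- conclusion
  have hli := hsnc (lch B P) hQ
  let _ : Fintype {e // eval (lch B P) (F e) = 0} := Fintype.ofFinite _
  rw [Fintype.linearIndependent_iff] at hli
  have h1 := hli (fun e => l e.1) (by
    funext s
    simp only [Finset.sum_apply, Pi.smul_apply, smul_eq_mul, Pi.zero_apply]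
    have h2 := hall s
    have h3 : ∑ e ∈ Finset.univ.filter (fun e => eval (lch B P) (F e) = 0),
        l e * aeval (lch B P) (pderiv s (F e)) =
        ∑ e : {e // eval (lch B P) (F e) = 0}, l e.1 * eval (lch B P) (pderiv s (F e.1)) :=
      Finset.sum_subtype _ (fun e => by simp) _
    refine h3.symm.trans ((Finset.sum_subset (Finset.filter_subset _ _) fun e _ he => ?_).trans h2)
    rw [hl0 e, zero_mul]
    intro h4
    apply he
    rw [Finset.mem_filter]
    refine ⟨Finset.mem_univ e, ?_⟩
    rw [aeval_tr] at h4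
    exact h4)
  funext e
  by_cases he : eval (lch B P) (F e) = 0
  · exact h1 ⟨e, he⟩
  · refine hl0 e ?_
    rw [aeval_tr]
    exact he

end Pool.Agent.Work.Emb
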