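import Mathlib
import Pool.Agent.Work.MP_4329d7_ag_ci.Defs

/-!
# Emb: Laurent polynomials given by families of monomials
-/

namespace Pool.Agent.Work.Emb

open Pool.Agent.Work.CI

variable {d : ℕ} {α : Type*}

/-- the Laurent polynomial `∑ c_a x ^ χ_a` -/
noncomputable def lauOf (A : Finset α) (χ : α → Fin d → ℤ) (c : α → ℂ) : Lau d :=
  ∑ a ∈ A, Finsupp.single (χ a) (c a)

variable {A : Finset α} {χ : α → Fin d → ℤ} {c : α → ℂ}

theorem lauOf_apply (hχ : Set.InjOn χ A) {a : α} (ha : a ∈ A) : lauOf A χ c (χ a) = c a := by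
  classical
  unfold lauOf
  rw [Finsupp.finsetSum_apply, Finset.sum_eq_single a]
  · rw [Finsupp.single_eq_same]
  · intro a' ha' hne
    refine Finsupp.single_eq_of_ne fun h => hne ?_
    exact hχ ha' ha h.symm
  · intro h
    exact absurd ha h

theorem lauOf_apply_of_notMem {ψ : Fin d → ℤ} (h : ∀ a ∈ A, χ a ≠ ψ) : lauOf A χ c ψ = 0 := by
  unfold lauOf
  rw [Finsupp.finsetSum_apply]
  exact Finset.sum_eq_zero fun a ha => Finsupp.single_eq_of_ne (h a ha).symm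

theorem mem_support_lauOf (hχ : Set.InjOn χ A) (hc : ∀ a ∈ A, c a ≠ 0) {ψ : Fin d → ℤ} :
    ψ ∈ (lauOf A χ c).support ↔ ∃ a ∈ A, χ a = ψ := by
  rw [Finsupp.mem_support_iff]
  constructor
  · intro h
    by_contra hno
    push Not at hno
    exact h (lauOf_apply_of_notMem hno)
  · rintro ⟨a, ha, rfl⟩
    rw [lauOf_apply hχ ha]
    exact hc a ha

theorem support_lauOf [DecidableEq (Fin d → ℤ)] (hχ : Set.InjOn χ A) (hc : ∀ a ∈ A, c a ≠ 0) :
    (lauOf A χ c).support = A.image χ := by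
  ext ψ
  rw [mem_support_lauOf hχ hc, Finset.mem_image]

theorem sum_lauOf {M : Type*} [AddCommMonoid M] (hχ : Set.InjOn χ A) (hc : ∀ a ∈ A, c a ≠ 0)
    (g : (Fin d → ℤ) → ℂ → M) :
    ∑ ψ ∈ (lauOf A χ c).support, g ψ (lauOf A χ c ψ) = ∑ a ∈ A, g (χ a) (c a) := by
  classical
  rw [support_lauOf hχ hc, Finset.sum_image hχ]
  refine Finset.sum_congr rfl fun a ha => ?_
  rw [lauOf_apply hχ ha]

open Classical in
theorem ini_lauOf (hχ : Set.InjOn χ A) (hc : ∀ a ∈ A, c a ≠ 0) (b : Fin d → ℤ) :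
    ini b (lauOf A χ c) =
      lauOf (A.filter fun a => ∀ a' ∈ A, pair (χ a) b ≤ pair (χ a') b) χ c := by
  have hmin : ∀ a, a ∈ A → ((∀ ψ ∈ (lauOf A χ c).support, pair (χ a) b ≤ pair ψ b) ↔
      ∀ a' ∈ A, pair (χ a) b ≤ pair (χ a') b) := by
    intro a ha
    constructor
    · intro h a' ha'
      exact h _ ((mem_support_lauOf hχ hc).2 ⟨a', ha', rfl⟩)
    · intro h ψ hψ
      obtain ⟨a', ha', rfl⟩ := (mem_support_lauOf hχ hc).1 hψ
      exact h a' ha'
  have hχ' : Set.InjOn χ (A.filter fun a => ∀ a' ∈ A, pair (χ a) b ≤ pair (χ a') b) :=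
    hχ.mono (by intro a ha; exact Finset.filter_subset _ _ ha)
  ext ψ
  unfold ini
  by_cases h : ∃ a ∈ A, χ a = ψ
  · obtain ⟨a, ha, rfl⟩ := h
    by_cases h1 : ∀ a' ∈ A, pair (χ a) b ≤ pair (χ a') b
    · rw [Finsupp.filter_apply_pos _ _ ((hmin a ha).2 h1), lauOf_apply hχ ha,
        lauOf_apply hχ' (Finset.mem_filter.2 ⟨ha, h1⟩)]
    · rw [Finsupp.filter_apply_neg _ _ fun h2 => h1 ((hmin a ha).1 h2), lauOf_apply_of_notMem]
      intro a' ha' h3
      rw [Finset.mem_filter] at ha'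
      have h4 := hχ ha'.1 ha h3
      rw [h4] at ha'
      exact h1 ha'.2
  · push Not at h
    rw [lauOf_apply_of_notMem fun a ha => h a (Finset.filter_subset _ _ ha)]
    rw [Finsupp.filter_apply]
    split_ifs
    · exact lauOf_apply_of_notMem h
    · rfl

theorem ev_lauOf {F : Type*} [Field F] [Algebra ℂ F] (hχ : Set.InjOn χ A)
    (hc : ∀ a ∈ A, c a ≠ 0) (x : Fin d → F) :
    ev (lauOf A χ c) x = ∑ a ∈ A, algebraMap ℂ F (c a) * mon x (χ a) :=
  sum_lauOf hχ hc fun ψ z => algebraMap ℂ F z * mon x ψ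

theorem ldv_lauOf {F : Type*} [Field F] [Algebra ℂ F] (hχ : Set.InjOn χ A)
    (hc : ∀ a ∈ A, c a ≠ 0) (j : Fin d) (x : Fin d → F) :
    ldv (lauOf A χ c) j x = ∑ a ∈ A, algebraMap ℂ F (c a) * (χ a j : F) * mon x (χ a) :=
  sum_lauOf hχ hc fun ψ z => algebraMap ℂ F z * (ψ j : F) * mon x ψ

open Classical in
theorem ev_ini_lauOf {F : Type*} [Field F] [Algebra ℂ F] (hχ : Set.InjOn χ A)
    (hc : ∀ a ∈ A, c a ≠ 0) (b : Fin d → ℤ) (x : Fin d → F) :
    ev (ini b (lauOf A χ c)) x =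
      ∑ a ∈ A with (∀ a' ∈ A, pair (χ a) b ≤ pair (χ a') b),
        algebraMap ℂ F (c a) * mon x (χ a) := by
  rw [ini_lauOf hχ hc, ev_lauOf (hχ.mono (by intro a ha; exact Finset.filter_subset _ _ ha))
    (fun a ha => hc a (Finset.filter_subset _ _ ha))]

open Classical in
theorem ldv_ini_lauOf {F : Type*} [Field F] [Algebra ℂ F] (hχ : Set.InjOn χ A)
    (hc : ∀ a ∈ A, c a ≠ 0) (b : Fin d → ℤ) (j : Fin d) (x : Fin d → F) :
    ldv (ini b (lauOf A χ c)) j x =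
      ∑ a ∈ A with (∀ a' ∈ A, pair (χ a) b ≤ pair (χ a') b),
        algebraMap ℂ F (c a) * (χ a j : F) * mon x (χ a) := by
  rw [ini_lauOf hχ hc, ldv_lauOf (hχ.mono (by intro a ha; exact Finset.filter_subset _ _ ha))
    (fun a ha => hc a (Finset.filter_subset _ _ ha))]

end Pool.Agent.Work.Emb
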