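import Mathlib
import Pool.Agent.Work.MP_4329d7_ag_emb.LauOf

/-!
# Emb: nondegenerate systems and radicals of monomials

If `K` is generated by the coordinates `X` of a solution of a nondegenerate system and by radicals
of monomials in `X` then `K` is generated by the coordinates of a solution of a nondegenerate
system (in the same number of coordinates).
-/

namespace Pool.Agent.Work.Emb

open Pool.Agent.Work.CI

section mon

variable {F : Type} [Field F] {D : ℕ}

theorem mon_sum {ι : Type} (s : Finset ι) {x : Fin D → F} (hx : ∀ j, x j ≠ 0)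
    (m : ι → ℤ) (v : ι → Fin D → ℤ) :
    mon x (∑ k ∈ s, m k • v k) = ∏ k ∈ s, mon x (v k) ^ m k := by
  classical
  induction s using Finset.induction_on with
  | empty => rw [Finset.sum_empty, Finset.prod_empty, mon_zero]
  | insert a s ha ih =>
    rw [Finset.sum_insert ha, Finset.prod_insert ha, mon_add hx, ih]
    congr 1
    unfold mon
    rw [← Finset.prod_zpow]
    refine Finset.prod_congr rfl fun j _ => ?_
    rw [← zpow_mul, Pi.smul_apply, smul_eq_mul, mul_comm]

theorem mon_mon {D' : ℕ} (y' : Fin D' → F) (hy' : ∀ k, y' k ≠ 0)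
    (ζ : Fin D → F) (A : Fin D → Fin D' → ℤ) (χ : Fin D → ℤ) :
    mon (fun j => ζ j * mon y' (A j)) χ =
      (∏ j, ζ j ^ χ j) * mon y' (fun k => ∑ j, χ j * A j k) := by
  have h1 : (fun k => ∑ j, χ j * A j k) = ∑ j, χ j • A j := by
    funext k
    rw [Finset.sum_apply]
    rfl
  rw [h1, mon_sum _ hy']
  unfold mon
  rw [← Finset.prod_mul_distrib]
  exact Finset.prod_congr rfl fun j _ => mul_zpow _ _ _

theorem mon_single (x : Fin D → F) (j : Fin D) (m : ℤ) :
    mon x (Pi.single j m) = x j ^ m := by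
  classical
  unfold mon
  rw [Finset.prod_eq_single j]
  · rw [Pi.single_eq_same]
  · intro i _ hi
    rw [Pi.single_eq_of_ne hi, zpow_zero]
  · intro h
    exact absurd (Finset.mem_univ _) h

end mon

theorem exists_root_const {K : Type} [Field K] [Algebra ℂ K] {N : ℕ} (hN : 0 < N) {w : K}
    (hw : w ^ N = 1) : ∃ ζ : ℂ, w = algebraMap ℂ K ζ := by
  have h1 : IsIntegral ℂ w :=
    ⟨Polynomial.X ^ N - Polynomial.C 1, Polynomial.monic_X_pow_sub_C 1 hN.ne', by simp [hw]⟩
  have h2 := IsAlgClosed.degree_eq_one_of_irreducible ℂ (minpoly.irreducible h1)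
  obtain ⟨ζ, hζ⟩ := minpoly.mem_range_of_degree_eq_one ℂ w h2
  exact ⟨ζ, hζ.symm⟩

/-- if `x ^ N = y ^ N` then `x` is a constant times `y` -/
theorem exists_root_mul {K : Type} [Field K] [Algebra ℂ K] {N : ℕ} (hN : 0 < N) {x y : K}
    (hx : x ≠ 0) (hy : y ≠ 0) (h : x ^ N = y ^ N) : ∃ ζ : ℂ, ζ ≠ 0 ∧ x = algebraMap ℂ K ζ * y := by
  obtain ⟨ζ, hζ⟩ := exists_root_const hN (w := x / y) (by
    rw [div_pow, h, div_self (pow_ne_zero _ hy)])
  refine ⟨ζ, ?_, ?_⟩
  · rintro rfl
    rw [map_zero, div_eq_zero_iff] at hζ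
    exact hζ.elim hx hy
  · rw [← hζ, div_mul_cancel₀ _ hy]

section transport

variable {D : ℕ} {Q : Type}

/-- the exponents in the new coordinates -/
def tA (A : Fin D → Fin D → ℤ) (χ : Fin D → ℤ) : Fin D → ℤ := fun k => ∑ j, χ j * A j k

/-- the system in the new coordinates -/
noncomputable def fA (A : Fin D → Fin D → ℤ) (ζ : Fin D → ℂ) (f : Lau D) : Lau D :=
  lauOf f.support (tA A) (fun χ => f χ * ∏ j, ζ j ^ χ j)

theorem pair_tA (A : Fin D → Fin D → ℤ) (χ b : Fin D → ℤ) :
    pair (tA A χ) b = pair χ (fun j => ∑ k, A j k * b k) := by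
  unfold pair tA
  simp only [Finset.sum_mul, Finset.mul_sum]
  rw [Finset.sum_comm]
  exact Finset.sum_congr rfl fun j _ => Finset.sum_congr rfl fun k _ => by ring

variable {A : Fin D → Fin D → ℤ} {ζ : Fin D → ℂ}

theorem fA_ne (hζ : ∀ j, ζ j ≠ 0) (f : Lau D) : ∀ χ ∈ f.support, f χ * ∏ j, ζ j ^ χ j ≠ 0 := by
  intro χ hχ
  exact mul_ne_zero (Finsupp.mem_support_iff.1 hχ)
    (Finset.prod_ne_zero_iff.2 fun j _ => zpow_ne_zero _ (hζ j))

theorem ev_fA {F : Type} [Field F] [Algebra ℂ F] (hA : Function.Injective (tA A))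
    (hζ : ∀ j, ζ j ≠ 0) (f : Lau D) (y' : Fin D → F) (hy' : ∀ k, y' k ≠ 0) :
    ev (fA A ζ f) y' = ev f (fun j => algebraMap ℂ F (ζ j) * mon y' (A j)) := by
  unfold fA
  rw [ev_lauOf hA.injOn (fA_ne hζ f)]
  unfold ev
  refine Finset.sum_congr rfl fun χ _ => ?_
  rw [mon_mon y' hy', map_mul, map_prod]
  simp only [map_zpow₀]
  rw [mul_assoc]
  rfl

theorem lau_eq (f : Lau D) : f = lauOf f.support id f := by
  conv_lhs => rw [← Finsupp.sum_single f]
  rfl

theorem nondegenerate_fA (hA : Function.Injective (tA A))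
    (hA' : ∀ u : Fin D → ℂ, (∀ k, ∑ j, u j * (A j k : ℂ) = 0) → u = 0)
    (hζ : ∀ j, ζ j ≠ 0) (f : Q → Lau D) (hf : Nondegenerate f) :
    Nondegenerate fun q => fA A ζ (f q) := by
  classical
  intro b' y' hy' hev
  set b : Fin D → ℤ := fun j => ∑ k, A j k * b' k with hb
  set y : Fin D → ℂ := fun j => ζ j * mon y' (A j) with hy
  have hy0 : ∀ j, y j ≠ 0 := fun j => mul_ne_zero (hζ j) (mon_ne_zero hy' _)
  have hmin : ∀ q, (f q).support.filter (fun χ => ∀ χ' ∈ (f q).support,
      pair (tA A χ) b' ≤ pair (tA A χ') b') =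
      (f q).support.filter (fun χ => ∀ χ' ∈ (f q).support, pair χ b ≤ pair χ' b) := by
    intro q
    refine Finset.filter_congr fun χ _ => ?_
    simp only [pair_tA]
    rfl
  have hid : ∀ q, ini b (f q) = ini b (lauOf (f q).support id (f q)) := fun q => by
    rw [← lau_eq]
  have hne : ∀ q, ∀ χ ∈ (f q).support, f q χ ≠ 0 := fun q χ hχ => Finsupp.mem_support_iff.1 hχ
  have hmon : ∀ χ, mon y χ = (∏ j, ζ j ^ χ j) * mon y' (tA A χ) := fun χ =>
    mon_mon y' hy' ζ A χ
  have hev' : ∀ q, ev (ini b (f q)) y = 0 := by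
    intro q
    have h1 := hev q
    unfold fA at h1
    rw [ev_ini_lauOf hA.injOn (fA_ne hζ (f q)), hmin] at h1
    rw [hid, ev_ini_lauOf Function.injective_id.injOn (hne q), ← h1]
    refine Finset.sum_congr rfl fun χ _ => ?_
    simp only [Algebra.algebraMap_self, RingHom.id_apply, id]
    rw [hmon]
    ring
  have h2 := hf b y hy0 hev'
  let T : (Fin D → ℂ) →ₗ[ℂ] (Fin D → ℂ) :=
    { toFun := fun u k => ∑ j, u j * (A j k : ℂ)
      map_add' := fun u v => by
        funext k
        simp only [Pi.add_apply, add_mul, Finset.sum_add_distrib]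
      map_smul' := fun c u => by
        funext k
        simp only [Pi.smul_apply, smul_eq_mul, RingHom.id_apply, Finset.mul_sum, mul_assoc] }
  have hT : LinearMap.ker T = ⊥ := by
    rw [LinearMap.ker_eq_bot']
    intro u hu
    exact hA' u fun k => congrFun hu k
  have h3 := h2.map' T hT
  change LinearIndependent ℂ (fun q j => ldv (ini b' (fA A ζ (f q))) j y')
  have h6 : (fun q j => ldv (ini b' (fA A ζ (f q))) j y') =
      (⇑T ∘ fun q j => ldv (ini b (f q)) j y) := ?_
  · rw [h6]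
    exact h3
  funext q k
  change ldv (ini b' (fA A ζ (f q))) k y' = ∑ j, ldv (ini b (f q)) j y * (A j k : ℂ)
  unfold fA
  rw [ldv_ini_lauOf hA.injOn (fA_ne hζ (f q)), hmin]
  have h4 : ∀ j, ldv (ini b (f q)) j y = ∑ χ ∈ (f q).support with
      (∀ χ' ∈ (f q).support, pair χ b ≤ pair χ' b), f q χ * (χ j : ℂ) * mon y χ := by
    intro j
    rw [hid, ldv_ini_lauOf Function.injective_id.injOn (hne q)]
    rfl
  simp only [h4, Finset.sum_mul]
  rw [Finset.sum_comm]
  refine Finset.sum_congr rfl fun χ _ => ?_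
  rw [hmon]
  simp only [Algebra.algebraMap_self, RingHom.id_apply]
  have h5 : ((tA A χ k : ℤ) : ℂ) = ∑ j, (χ j : ℂ) * (A j k : ℂ) := by
    unfold tA
    push_cast
    rfl
  rw [h5, Finset.mul_sum, Finset.sum_mul]
  refine Finset.sum_congr rfl fun j _ => ?_
  ring

end transport

/-- radicals of monomials -/
theorem isog {K : Type} [Field K] [Algebra ℂ K] {D : ℕ} {Q : Type} (X : Fin D → K)
    (f : Q → Lau D) (hX : ∀ j, X j ≠ 0) (hnd : Nondegenerate f) (hev : ∀ q, ev (f q) X = 0)
    (N : ℕ) (hN : 0 < N) (Z : Set K) (hZ : ∀ z ∈ Z, ∃ v : Fin D → ℤ, z ^ N = mon X v)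
    (hgen : IntermediateField.adjoin ℂ (Set.range X ∪ Z) = ⊤) :
    ∃ (t : Fin D → K) (f' : Q → Lau D), (∀ j, t j ≠ 0) ∧ Nondegenerate f' ∧
      (∀ q, ev (f' q) t = 0) ∧ IntermediateField.adjoin ℂ (Set.range t) = ⊤ := by
  classical
  -- the lattice
  let V : Submodule ℤ (Fin D → ℤ) :=
    { carrier := {v | ∃ g : K, g ≠ 0 ∧ g ^ N = mon X v}
      add_mem' := fun {a b} ⟨g, hg0, hg⟩ ⟨h, hh0, hh⟩ =>
        ⟨g * h, mul_ne_zero hg0 hh0, by rw [mul_pow, hg, hh, mon_add hX]⟩
      zero_mem' := ⟨1, one_ne_zero, by rw [one_pow, mon_zero]⟩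
      smul_mem' := fun m a ⟨g, hg0, hg⟩ => ⟨g ^ m, zpow_ne_zero _ hg0, by
        rw [← zpow_natCast, ← zpow_mul, mul_comm, zpow_mul, zpow_natCast, hg]
        unfold mon
        rw [← Finset.prod_zpow]
        refine Finset.prod_congr rfl fun j _ => ?_
        rw [← zpow_mul, Pi.smul_apply, smul_eq_mul, mul_comm]⟩ }
  have hNV : ∀ v : Fin D → ℤ, (N : ℤ) • v ∈ V := by
    intro v
    refine ⟨mon X v, mon_ne_zero hX v, ?_⟩
    unfold mon
    rw [← Finset.prod_pow]
    refine Finset.prod_congr rfl fun j _ => ?_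
    rw [← zpow_natCast, ← zpow_mul, Pi.smul_apply, smul_eq_mul, mul_comm]
  obtain ⟨D', bV⟩ := Submodule.basisOfPid (Pi.basisFun ℤ (Fin D)) V
  have hD : D' = D := by
    have h1 : Module.finrank ℤ V = D' := by
      rw [Module.finrank_eq_card_basis bV, Fintype.card_fin]
    have hfree : Module.Finite ℤ V := Module.Finite.of_basis bV
    have h2 : Module.finrank ℤ V ≤ Module.finrank ℤ (Fin D → ℤ) :=
      LinearMap.finrank_le_finrank_of_injective (f := V.subtype) V.injective_subtype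
    let s : (Fin D → ℤ) →ₗ[ℤ] V :=
      { toFun := fun v => ⟨(N : ℤ) • v, hNV v⟩
        map_add' := fun a b => Subtype.ext (smul_add _ _ _)
        map_smul' := fun m a => Subtype.ext (smul_comm _ _ _) }
    have h3 : Module.finrank ℤ (Fin D → ℤ) ≤ Module.finrank ℤ V := by
      refine LinearMap.finrank_le_finrank_of_injective (f := s) fun a b h => ?_
      have h4 := congrArg Subtype.val h
      have h5 : (N : ℤ) • a = (N : ℤ) • b := h4
      have hN0 : (N : ℤ) ≠ 0 := by exact_mod_cast hN.ne'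
      exact smul_right_injective _ hN0 h5
    rw [Module.finrank_fintype_fun_eq_card, Fintype.card_fin] at h2 h3
    omega
  subst hD
  -- the new coordinates
  have hv : ∀ k, ∃ g : K, g ≠ 0 ∧ g ^ N = mon X (bV k : Fin D' → ℤ) := fun k => (bV k).2
  choose t ht0 ht using hv
  have hrep : ∀ v ∈ V, ∃ m : Fin D' → ℤ, v = ∑ k, m k • (bV k : Fin D' → ℤ) := by
    intro v hv
    refine ⟨fun k => bV.repr ⟨v, hv⟩ k, ?_⟩
    have h1 := congrArg (fun w : V => (w : Fin D' → ℤ)) (bV.sum_repr ⟨v, hv⟩)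
    refine h1.symm.trans ?_
    simp only [Submodule.coe_sum, Submodule.coe_smul]
  have hmt : ∀ (m : Fin D' → ℤ), (mon t m) ^ N = mon X (∑ k, m k • (bV k : Fin D' → ℤ)) := by
    intro m
    rw [mon_sum _ hX]
    unfold mon
    rw [← Finset.prod_pow]
    refine Finset.prod_congr rfl fun k _ => ?_
    rw [← zpow_natCast, ← zpow_mul, mul_comm, zpow_mul, zpow_natCast, ht]
    rfl
  have hA : ∀ j, ∃ m : Fin D' → ℤ, (N : ℤ) • Pi.single j (1 : ℤ) =
      ∑ k, m k • (bV k : Fin D' → ℤ) := fun j => hrep _ (hNV _)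
  choose A hA using hA
  have hAX : ∀ j, ∃ ζ : ℂ, ζ ≠ 0 ∧ X j = algebraMap ℂ K ζ * mon t (A j) := by
    intro j
    refine exists_root_mul hN (hX j) (mon_ne_zero ht0 _) ?_
    rw [hmt, ← hA, ← Pi.single_smul, smul_eq_mul, mul_one, mon_single, zpow_natCast]
  choose ζ hζ0 hζ using hAX
  -- injectivity
  have hN0 : (N : ℤ) ≠ 0 := by exact_mod_cast hN.ne'
  have hsum : ∀ j l, ∑ k, A j k * (bV k : Fin D' → ℤ) l = if j = l then (N : ℤ) else 0 := by
    intro j l
    have h1 := congrFun (hA j) l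
    rw [Finset.sum_apply] at h1
    simp only [Pi.smul_apply, smul_eq_mul] at h1
    rw [← h1, Pi.single_apply]
    by_cases h : j = l
    · rw [if_pos h, if_pos h.symm, mul_one]
    · rw [if_neg h, if_neg (Ne.symm h), mul_zero]
  have hinj : Function.Injective (tA A) := by
    intro χ χ' h
    funext l
    have h1 : ∀ χ : Fin D' → ℤ, ∑ k, tA A χ k * (bV k : Fin D' → ℤ) l = χ l * N := by
      intro χ
      unfold tA
      simp only [Finset.sum_mul]
      rw [Finset.sum_comm]
      simp only [mul_assoc, ← Finset.mul_sum, hsum]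
      rw [Finset.sum_eq_single l]
      · rw [if_pos rfl]
      · intro j _ hj
        rw [if_neg hj, mul_zero]
      · intro h
        exact absurd (Finset.mem_univ _) h
    have h2 := h1 χ
    rw [h, h1 χ'] at h2
    exact (mul_right_cancel₀ hN0 h2).symm
  have hinj' : ∀ u : Fin D' → ℂ, (∀ k, ∑ j, u j * (A j k : ℂ) = 0) → u = 0 := by
    intro u hu
    funext l
    have h1 : ∑ k, (∑ j, u j * (A j k : ℂ)) * (((bV k : Fin D' → ℤ) l : ℤ) : ℂ) = u l * N := by
      simp only [Finset.sum_mul]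
      rw [Finset.sum_comm]
      have h2 : ∀ j, ∑ k, u j * (A j k : ℂ) * (((bV k : Fin D' → ℤ) l : ℤ) : ℂ) =
          u j * (if j = l then (N : ℂ) else 0) := by
        intro j
        simp only [mul_assoc, ← Finset.mul_sum]
        congr 1
        have h3 := congrArg (Int.cast : ℤ → ℂ) (hsum j l)
        push_cast at h3
        exact h3
      simp only [h2]
      rw [Finset.sum_eq_single l]
      · rw [if_pos rfl]
      · intro j _ hj
        rw [if_neg hj, mul_zero]
      · intro h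
        exact absurd (Finset.mem_univ _) h
    simp only [hu, zero_mul, Finset.sum_const_zero] at h1
    have hNC : (N : ℂ) ≠ 0 := by exact_mod_cast hN.ne'
    exact (mul_eq_zero.1 h1.symm).resolve_right hNC
  refine ⟨t, fun q => fA A ζ (f q), ht0, nondegenerate_fA hinj hinj' hζ0 f hnd, fun q => ?_, ?_⟩
  · rw [ev_fA hinj hζ0 _ t ht0]
    have h1 : (fun j => algebraMap ℂ K (ζ j) * mon t (A j)) = X := by
      funext j
      exact (hζ j).symm
    rw [h1]
    exact hev q
  · rw [eq_top_iff, ← hgen, IntermediateField.adjoin_le_iff]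
    have hmem : ∀ (c : ℂ) (m : Fin D' → ℤ), algebraMap ℂ K c * mon t m ∈
        IntermediateField.adjoin ℂ (Set.range t) := by
      intro c m
      refine mul_mem (IntermediateField.algebraMap_mem _ c) ?_
      unfold mon
      exact prod_mem fun k _ => zpow_mem
        (IntermediateField.subset_adjoin ℂ (Set.range t) (Set.mem_range_self k)) _
    rintro z (⟨j, rfl⟩ | hz)
    · rw [hζ j]
      exact hmem _ _
    · obtain ⟨v, hv⟩ := hZ z hz
      have hz0 : z ≠ 0 := by
        rintro rfl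
        rw [zero_pow hN.ne'] at hv
        exact mon_ne_zero hX v hv.symm
      have hvV : v ∈ V := ⟨z, hz0, hv⟩
      obtain ⟨m, hm⟩ := hrep v hvV
      obtain ⟨c, -, hc⟩ := exists_root_mul hN hz0 (mon_ne_zero ht0 m) (by
        rw [hmt, ← hm, hv])
      rw [hc]
      exact hmem _ _

end Pool.Agent.Work.Emb
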