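import Mathlib
import Pool.Agent.Work.MP_4329d7_ag_emb.LauOf
import Pool.Agent.Work.MP_4329d7_ag_snc.Defs

/-!
# Emb: the system `y_e = G_e (1, x')` is nondegenerate

Hypothesis (`hgood`): the divisor `⋃ {G e = 0}` together with the coordinate hyperplanes has simple
normal crossings.
-/

namespace Pool.Agent.Work.Emb

open MvPolynomial Pool.Agent.Work.Snc Pool.Agent.Work.CI

variable {I : Type} {n : I → ℕ} {E : Type} {D : ℕ}

section general

variable [Fintype I]

/-- Euler -/
theorem mul_pderiv {F : Type} [Field F] [Algebra ℂ F] (G : MvPolynomial (Co I n) ℂ)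
    (P : Co I n → F) (s : Co I n) :
    P s * aeval P (pderiv s G) =
      ∑ μ ∈ G.support, algebraMap ℂ F (coeff μ G) * (μ s : F) * ∏ s, P s ^ μ s := by
  classical
  have h1 : X s * pderiv s G = ∑ μ ∈ G.support, μ s • monomial μ (coeff μ G) := by
    conv_lhs => rw [G.as_sum, map_sum, Finset.mul_sum]
    exact Finset.sum_congr rfl fun μ _ => X_mul_pderiv_monomial
  have h2 : P s * aeval P (pderiv s G) = aeval P (X s * pderiv s G) := by
    rw [map_mul, aeval_X]
  rw [h2, h1, map_sum]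
  refine Finset.sum_congr rfl fun μ _ => ?_
  rw [map_nsmul, aeval_monomial, Finsupp.prod_fintype _ _ fun _ => pow_zero _, nsmul_eq_mul]
  ring

theorem aeval_sum {F : Type} [Field F] [Algebra ℂ F] (G : MvPolynomial (Co I n) ℂ)
    (P : Co I n → F) :
    aeval P G = ∑ μ ∈ G.support, algebraMap ℂ F (coeff μ G) * ∏ s, P s ^ μ s := by
  classical
  conv_lhs => rw [G.as_sum, map_sum]
  refine Finset.sum_congr rfl fun μ _ => ?_
  rw [aeval_monomial, Finsupp.prod_fintype _ _ fun _ => pow_zero _]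

theorem sum_deg [DecidableEq I] {G : MvPolynomial (Co I n) ℂ} {d : I → ℕ}
    (hG : ∀ i, G.IsWeightedHomogeneous (wt i) (d i)) {μ : Co I n →₀ ℕ} (hμ : μ ∈ G.support)
    (i : I) : ∑ j, μ ⟨i, j⟩ = d i := by
  have h1 := hG i (mem_support_iff.1 hμ)
  rw [Finsupp.weight_apply, Finsupp.sum_fintype _ (fun s c => c • wt i s)
    (fun s => zero_smul ℕ (wt i s)), Fintype.sum_sigma, Finset.sum_eq_single i] at h1
  · rw [← h1]
    refine Finset.sum_congr rfl fun j _ => ?_
    unfold wt
    rw [if_pos rfl, smul_eq_mul, mul_one]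
  · intro i' _ hi'
    refine Finset.sum_eq_zero fun j _ => ?_
    unfold wt
    rw [if_neg hi', smul_zero]
  · intro h
    exact absurd (Finset.mem_univ _) h

theorem euler [DecidableEq I] {F : Type} [Field F] [Algebra ℂ F] {G : MvPolynomial (Co I n) ℂ}
    {d : I → ℕ} (hG : ∀ i, G.IsWeightedHomogeneous (wt i) (d i)) (P : Co I n → F) (i : I) :
    ∑ j, P ⟨i, j⟩ * aeval P (pderiv ⟨i, j⟩ G) = d i * aeval P G := by
  simp only [mul_pderiv]
  rw [Finset.sum_comm, aeval_sum, Finset.mul_sum]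
  refine Finset.sum_congr rfl fun μ hμ => ?_
  rw [← Finset.sum_mul, ← Finset.mul_sum, ← sum_deg hG hμ i]
  push_cast
  ring

end general

section graph

variable (ε : Fin D ≃ (Σ i, Fin (n i)) ⊕ E)

/-- the exponents: `none` = the coordinate of `e`, `some μ` = the monomial `μ` -/
def chi [DecidableEq E] (e : E) : Option (Co I n →₀ ℕ) → Fin D → ℤ
  | none => fun k => Sum.elim (fun _ => 0) (fun e' => if e' = e then 1 else 0) (ε k)
  | some μ => fun k => Sum.elim (fun p => (μ ⟨p.1, p.2.succ⟩ : ℤ)) (fun _ => 0) (ε k)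

/-- the coefficients -/
noncomputable def cfe (G : MvPolynomial (Co I n) ℂ) : Option (Co I n →₀ ℕ) → ℂ
  | none => 1
  | some μ => - coeff μ G

/-- the equation `y_e = G_e (1, x')` -/
noncomputable def gra [DecidableEq E] (G : MvPolynomial (Co I n) ℂ) (e : E) : Lau D :=
  lauOf (Finset.insertNone G.support) (chi ε e) (cfe G)

/-- homogeneous coordinates from torus coordinates -/
def hmc {R : Type*} (z : R) (y : Fin D → R) : Co I n → R :=
  fun s => Fin.cases (motive := fun _ => R) z (fun j => y (ε.symm (Sum.inl ⟨s.1, j⟩))) s.2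

theorem hmc_zero {R : Type*} (z : R) (y : Fin D → R) (i : I) : hmc ε z y ⟨i, 0⟩ = z := rfl

theorem hmc_succ {R : Type*} (z : R) (y : Fin D → R) (i : I) (j : Fin (n i)) :
    hmc ε z y ⟨i, j.succ⟩ = y (ε.symm (Sum.inl ⟨i, j⟩)) := rfl

variable [DecidableEq E]

theorem chi_inl (e : E) (μ : Co I n →₀ ℕ) (i : I) (j : Fin (n i)) :
    chi ε e (some μ) (ε.symm (Sum.inl ⟨i, j⟩)) = μ ⟨i, j.succ⟩ := by
  simp [chi]

theorem chi_inr (e : E) (μ : Co I n →₀ ℕ) (e' : E) :
    chi ε e (some μ) (ε.symm (Sum.inr e')) = 0 := by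
  simp [chi]

theorem chi_none_inl (e : E) (p : Σ i, Fin (n i)) :
    chi ε e none (ε.symm (Sum.inl p)) = 0 := by
  simp [chi]

theorem chi_none_inr (e : E) (e' : E) :
    chi ε e none (ε.symm (Sum.inr e')) = if e' = e then 1 else 0 := by
  simp [chi]

variable [Fintype I] [Fintype E]

theorem sum_eps {M : Type*} [AddCommMonoid M] (g : Fin D → M) :
    ∑ k, g k = ∑ i, ∑ j, g (ε.symm (Sum.inl ⟨i, j⟩)) + ∑ e, g (ε.symm (Sum.inr e)) := by
  rw [← Equiv.sum_comp ε.symm, Fintype.sum_sum_type, Fintype.sum_sigma]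

theorem prod_eps {M : Type*} [CommMonoid M] (g : Fin D → M) :
    ∏ k, g k = (∏ i, ∏ j, g (ε.symm (Sum.inl ⟨i, j⟩))) * ∏ e, g (ε.symm (Sum.inr e)) := by
  rw [← Equiv.prod_comp ε.symm, Fintype.prod_sum_type, Fintype.prod_sigma]

theorem pair_some (e : E) (μ : Co I n →₀ ℕ) (b : Fin D → ℤ) :
    pair (chi ε e (some μ)) b = ∑ s, (μ s : ℤ) * hmc ε 0 b s := by
  unfold pair
  rw [sum_eps ε, Fintype.sum_sigma]
  simp only [chi_inl, chi_inr, zero_mul, Finset.sum_const_zero, add_zero]
  refine Finset.sum_congr rfl fun i _ => ?_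
  rw [Fin.sum_univ_succ, hmc_zero, mul_zero, zero_add]
  rfl

theorem pair_none (e : E) (b : Fin D → ℤ) :
    pair (chi ε e none) b = b (ε.symm (Sum.inr e)) := by
  unfold pair
  rw [sum_eps ε]
  simp only [chi_none_inl, chi_none_inr, zero_mul, Finset.sum_const_zero, zero_add]
  rw [Finset.sum_eq_single e]
  · rw [if_pos rfl, one_mul]
  · intro e' _ he'
    rw [if_neg he', zero_mul]
  · intro h
    exact absurd (Finset.mem_univ _) h

theorem mon_some {F : Type} [Field F] (e : E) (μ : Co I n →₀ ℕ) (y : Fin D → F) :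
    mon y (chi ε e (some μ)) = ∏ s, hmc ε 1 y s ^ μ s := by
  unfold mon
  rw [prod_eps ε, Fintype.prod_sigma]
  simp only [chi_inl, chi_inr, zpow_zero, Finset.prod_const_one, mul_one, zpow_natCast]
  refine Finset.prod_congr rfl fun i _ => ?_
  rw [Fin.prod_univ_succ, hmc_zero, one_pow, one_mul]
  rfl

theorem mon_none {F : Type} [Field F] (e : E) (y : Fin D → F) :
    mon y (chi ε e none) = y (ε.symm (Sum.inr e)) := by
  unfold mon
  rw [prod_eps ε]
  simp only [chi_none_inl, chi_none_inr, zpow_zero, Finset.prod_const_one, one_mul]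
  rw [Finset.prod_eq_single e]
  · rw [if_pos rfl, zpow_one]
  · intro e' _ he'
    rw [if_neg he', zpow_zero]
  · intro h
    exact absurd (Finset.mem_univ _) h

theorem chi_inj [DecidableEq I] {G : MvPolynomial (Co I n) ℂ} {d : I → ℕ}
    (hG : ∀ i, G.IsWeightedHomogeneous (wt i) (d i)) (e : E) :
    Set.InjOn (chi ε e) (Finset.insertNone G.support : Finset (Option (Co I n →₀ ℕ))) := by
  rintro (_ | μ) hμ (_ | μ') hμ' h
  · rfl
  · exfalso
    have h1 := congrFun h (ε.symm (Sum.inr e))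
    rw [chi_none_inr, chi_inr, if_pos rfl] at h1
    exact one_ne_zero h1
  · exfalso
    have h1 := congrFun h (ε.symm (Sum.inr e))
    rw [chi_none_inr, chi_inr, if_pos rfl] at h1
    exact zero_ne_one h1
  · congr 1
    have hμ1 : μ ∈ G.support := Finset.some_mem_insertNone.1 hμ
    have hμ2 : μ' ∈ G.support := Finset.some_mem_insertNone.1 hμ'
    have h1 : ∀ i (j : Fin (n i)), μ ⟨i, j.succ⟩ = μ' ⟨i, j.succ⟩ := by
      intro i j
      have h2 := congrFun h (ε.symm (Sum.inl ⟨i, j⟩))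
      rw [chi_inl, chi_inl] at h2
      exact_mod_cast h2
    ext ⟨i, j⟩
    refine Fin.cases ?_ (fun j => h1 i j) j
    have h2 := sum_deg hG hμ1 i
    rw [← sum_deg hG hμ2 i, Fin.sum_univ_succ, Fin.sum_univ_succ,
      Finset.sum_congr rfl fun j _ => h1 i j] at h2
    omega

theorem cfe_ne (G : MvPolynomial (Co I n) ℂ) : ∀ a ∈ Finset.insertNone G.support, cfe G a ≠ 0 := by
  rintro (_ | μ) hμ
  · exact one_ne_zero
  · exact neg_ne_zero.2 (mem_support_iff.1 (Finset.some_mem_insertNone.1 hμ))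

/-- the value of the equation -/
theorem ev_gra [DecidableEq I] {F : Type} [Field F] [Algebra ℂ F] {G : MvPolynomial (Co I n) ℂ}
    {d : I → ℕ} (hG : ∀ i, G.IsWeightedHomogeneous (wt i) (d i)) (e : E) (y : Fin D → F) :
    ev (gra ε G e) y = y (ε.symm (Sum.inr e)) - aeval (hmc ε 1 y) G := by
  unfold gra
  rw [ev_lauOf (chi_inj ε hG e) (cfe_ne G), Finset.sum_insertNone, mon_none, aeval_sum,
    sub_eq_add_neg, ← Finset.sum_neg_distrib]
  congr 1
  · show algebraMap ℂ F 1 * _ = _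
    rw [map_one, one_mul]
  · refine Finset.sum_congr rfl fun μ _ => ?_
    rw [mon_some]
    show algebraMap ℂ F (-coeff μ G) * _ = _
    rw [map_neg, neg_mul]

end graph

end Pool.Agent.Work.Emb
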