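import Mathlib
import Pool.Agent.Work.MP_4329d7_ag_emb.NonD

/-!
# Emb: the system `y_e = G_e (1, x')` is nondegenerate (main step)
-/

namespace Pool.Agent.Work.Emb

open MvPolynomial Pool.Agent.Work.Snc Pool.Agent.Work.CI

variable {I : Type} {n : I → ℕ} {E : Type} {D : ℕ} (ε : Fin D ≃ (Σ i, Fin (n i)) ⊕ E)
  [DecidableEq E] [Fintype I] [Fintype E] [DecidableEq I]

omit [DecidableEq E] [DecidableEq I] in
/-- the coordinate points are not on the divisor -/
theorem exists_vertex [DecidableEq I] (G : E → MvPolynomial (Co I n) ℂ) (d : E → I → ℕ)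
    (hG : ∀ e i, (G e).IsWeightedHomogeneous (wt i) (d e i))
    (hgood : ∀ P : Co I n → ℂ, IsPoint P → ∀ l : E → ℂ, (∀ e, aeval P (G e) ≠ 0 → l e = 0) →
      (∀ s, P s ≠ 0 → ∑ e, l e * aeval P (pderiv s (G e)) = 0) → l = 0)
    (js : (i : I) → Fin (n i + 1)) (e : E) :
    ∃ μ ∈ (G e).support, ∀ s : Co I n, μ s ≠ 0 → s.2 = js s.1 := by
  classical
  let P : Co I n → ℂ := fun s => if s.2 = js s.1 then 1 else 0
  have hP : IsPoint P := fun i => ⟨js i, by
    show (if js i = js i then (1 : ℂ) else 0) ≠ 0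
    rw [if_pos rfl]
    exact one_ne_zero⟩
  have hne : aeval P (G e) ≠ 0 := by
    intro h0
    have h1 := hgood P hP (Pi.single e 1) (fun e' he' => by
      rw [Pi.single_eq_of_ne]
      rintro rfl
      exact he' h0) (fun s hs => by
      have hs2 : s.2 = js s.1 := by
        by_contra h
        exact hs (if_neg h)
      rw [Finset.sum_eq_single e, Pi.single_eq_same, one_mul]
      · have h2 := euler (hG e) P s.1
        rw [h0, mul_zero, Finset.sum_eq_single s.2] at h2
        · have h3 : P ⟨s.1, s.2⟩ ≠ 0 := hs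
          exact (mul_eq_zero.1 h2).resolve_left h3
        · intro j _ hj
          have h3 : P ⟨s.1, j⟩ = 0 := by
            refine if_neg fun h => hj ?_
            rw [hs2]
            exact h
          rw [h3, zero_mul]
        · intro h
          exact absurd (Finset.mem_univ _) h
      · intro e' _ he'
        rw [Pi.single_eq_of_ne he', zero_mul]
      · intro h
        exact absurd (Finset.mem_univ _) h)
    have h2 := congrFun h1 e
    rw [Pi.single_eq_same] at h2
    exact one_ne_zero h2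
  rw [aeval_sum] at hne
  obtain ⟨μ, hμ, h1⟩ := Finset.exists_ne_zero_of_sum_ne_zero hne
  refine ⟨μ, hμ, fun s hs => ?_⟩
  have h2 := (mul_ne_zero_iff.1 h1).2
  rw [Finset.prod_ne_zero_iff] at h2
  have h3 := h2 s (Finset.mem_univ s)
  by_contra h
  apply h3
  have h4 : P s = 0 := if_neg h
  rw [h4, zero_pow hs]

theorem nondegenerate_gra (G : E → MvPolynomial (Co I n) ℂ) (d : E → I → ℕ)
    (hG : ∀ e i, (G e).IsWeightedHomogeneous (wt i) (d e i))
    (hgood : ∀ P : Co I n → ℂ, IsPoint P → ∀ l : E → ℂ, (∀ e, aeval P (G e) ≠ 0 → l e = 0) →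
      (∀ s, P s ≠ 0 → ∑ e, l e * aeval P (pderiv s (G e)) = 0) → l = 0) :
    Nondegenerate fun e => gra ε (G e) e := by
  classical
  intro b y hy hev
  set β : Co I n → ℤ := hmc ε 0 b with hβ
  have hβm : ∀ i, ∃ j, ∀ j', β ⟨i, j⟩ ≤ β ⟨i, j'⟩ := fun i =>
    Finite.exists_min fun j => β ⟨i, j⟩
  choose js hjs using hβm
  let βm : I → ℤ := fun i => β ⟨i, js i⟩
  let ok : (Co I n →₀ ℕ) → Prop := fun μ => ∀ s, μ s ≠ 0 → β s = βm s.1
  let m' : E → ℤ := fun e => ∑ i, (d e i : ℤ) * βm i
  let γ : E → ℤ := fun e => b (ε.symm (Sum.inr e))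
  -- the minima
  have hdiff : ∀ e, ∀ μ ∈ (G e).support, pair (chi ε e (some μ)) b - m' e =
      ∑ s, (μ s : ℤ) * (β s - βm s.1) := by
    intro e μ hμ
    rw [pair_some]
    have h1 : m' e = ∑ s : Co I n, (μ s : ℤ) * βm s.1 := by
      rw [Fintype.sum_sigma]
      refine Finset.sum_congr rfl fun i _ => ?_
      rw [← sum_deg (hG e) hμ i]
      push_cast
      rw [Finset.sum_mul]
    rw [h1, ← Finset.sum_sub_distrib]
    exact Finset.sum_congr rfl fun s _ => (mul_sub _ _ _).symm
  have hterm : ∀ (μ : Co I n →₀ ℕ) s, 0 ≤ (μ s : ℤ) * (β s - βm s.1) := by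
    intro μ s
    refine mul_nonneg (Int.natCast_nonneg _) ?_
    have := hjs s.1 s.2
    show 0 ≤ β ⟨s.1, s.2⟩ - βm s.1
    linarith
  have hM1 : ∀ e, ∀ μ ∈ (G e).support, m' e ≤ pair (chi ε e (some μ)) b := by
    intro e μ hμ
    have h1 := hdiff e μ hμ
    have h2 : 0 ≤ ∑ s, (μ s : ℤ) * (β s - βm s.1) := Finset.sum_nonneg fun s _ => hterm μ s
    linarith
  have hM2 : ∀ e, ∀ μ ∈ (G e).support, (pair (chi ε e (some μ)) b = m' e ↔ ok μ) := by
    intro e μ hμ
    have h1 := hdiff e μ hμ
    have h2 : pair (chi ε e (some μ)) b = m' e ↔ ∑ s, (μ s : ℤ) * (β s - βm s.1) = 0 := by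
      rw [← h1, sub_eq_zero]
    rw [h2, Finset.sum_eq_zero_iff_of_nonneg fun s _ => hterm μ s]
    constructor
    · intro h s hs
      have h3 := h s (Finset.mem_univ s)
      rcases mul_eq_zero.1 h3 with h4 | h4
      · exact absurd (by exact_mod_cast h4) hs
      · linarith
    · intro h s _
      by_cases hs : μ s = 0
      · rw [hs]
        simp
      · rw [h s hs, sub_self, mul_zero]
  have hM3 : ∀ e, ∃ μ ∈ (G e).support, ok μ := by
    intro e
    obtain ⟨μ, hμ, h1⟩ := exists_vertex G d hG hgood js e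
    refine ⟨μ, hμ, fun s hs => ?_⟩
    have h2 := h1 s hs
    show β ⟨s.1, s.2⟩ = β ⟨s.1, js s.1⟩
    rw [h2]
  -- sums over the minimal exponents
  have hfil : ∀ (e : E) (h : Option (Co I n →₀ ℕ) → ℂ),
      ∑ a ∈ Finset.insertNone (G e).support with (∀ a' ∈ Finset.insertNone (G e).support,
        pair (chi ε e a) b ≤ pair (chi ε e a') b), h a =
      (if γ e ≤ m' e then h none else 0) +
        if m' e ≤ γ e then ∑ μ ∈ (G e).support with ok μ, h (some μ) else 0 := by
    intro e h
    rw [Finset.sum_filter, Finset.sum_insertNone]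
    congr 1
    · refine if_congr ?_ rfl rfl
      rw [pair_none]
      constructor
      · intro h1
        obtain ⟨μ, hμ, h2⟩ := hM3 e
        have h3 := h1 (some μ) (Finset.some_mem_insertNone.2 hμ)
        rw [(hM2 e μ hμ).2 h2] at h3
        exact h3
      · rintro h1 (_ | μ) hμ
        · rw [pair_none]
        · exact le_trans h1 (hM1 e μ (Finset.some_mem_insertNone.1 hμ))
    · have h1 : ∀ μ ∈ (G e).support, ((∀ a' ∈ Finset.insertNone (G e).support,
          pair (chi ε e (some μ)) b ≤ pair (chi ε e a') b) ↔ (m' e ≤ γ e ∧ ok μ)) := by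
        intro μ hμ
        constructor
        · intro h1
          obtain ⟨μ', hμ', h2⟩ := hM3 e
          have h3 := h1 (some μ') (Finset.some_mem_insertNone.2 hμ')
          rw [(hM2 e μ' hμ').2 h2] at h3
          have h4 := h1 none (Finset.none_mem_insertNone)
          rw [pair_none] at h4
          exact ⟨le_trans (hM1 e μ hμ) h4, (hM2 e μ hμ).1 (le_antisymm h3 (hM1 e μ hμ))⟩
        · rintro ⟨h1, h2⟩ (_ | μ') hμ'
          · rw [pair_none, (hM2 e μ hμ).2 h2]
            exact h1
          · rw [(hM2 e μ hμ).2 h2]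
            exact hM1 e μ' (Finset.some_mem_insertNone.1 hμ')
      split_ifs with h2
      · rw [Finset.sum_filter]
        refine Finset.sum_congr rfl fun μ hμ => if_congr ?_ rfl rfl
        rw [h1 μ hμ]
        exact ⟨fun h => h.2, fun h => ⟨h2, h⟩⟩
      · refine Finset.sum_eq_zero fun μ hμ => if_neg ?_
        rw [h1 μ hμ]
        exact fun h => h2 h.1
  -- the point of the stratum
  let P : Co I n → ℂ := fun s => if β s = βm s.1 then hmc ε 1 y s else 0
  have hh : ∀ s, hmc ε 1 y s ≠ 0 := by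
    rintro ⟨i, j⟩
    refine Fin.cases ?_ (fun j => ?_) j
    · exact one_ne_zero
    · exact hy _
  have hP : IsPoint P := by
    intro i
    refine ⟨js i, ?_⟩
    show (if β ⟨i, js i⟩ = β ⟨i, js i⟩ then hmc ε 1 y ⟨i, js i⟩ else 0) ≠ 0
    rw [if_pos rfl]
    exact hh _
  have hprod : ∀ μ : Co I n →₀ ℕ, ∏ s, P s ^ μ s =
      if ok μ then ∏ s, hmc ε 1 y s ^ μ s else 0 := by
    intro μ
    split_ifs with h
    · refine Finset.prod_congr rfl fun s _ => ?_
      by_cases hs : μ s = 0
      · rw [hs, pow_zero, pow_zero]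
      · congr 1
        exact if_pos (h s hs)
    · simp only [ok, not_forall] at h
      obtain ⟨s, hs, h1⟩ := h
      refine Finset.prod_eq_zero (Finset.mem_univ s) ?_
      have h2 : P s = 0 := if_neg h1
      rw [h2, zero_pow hs]
  have hsumP : ∀ e, ∑ μ ∈ (G e).support with ok μ, coeff μ (G e) *
      ∏ s, hmc ε 1 y s ^ μ s = aeval P (G e) := by
    intro e
    rw [aeval_sum, Finset.sum_filter]
    refine Finset.sum_congr rfl fun μ _ => ?_
    rw [hprod]
    split_ifs
    · rfl
    · rw [mul_zero]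
  have hsumP' : ∀ e s, ∑ μ ∈ (G e).support with ok μ, coeff μ (G e) * (μ s : ℂ) *
      ∏ s, hmc ε 1 y s ^ μ s = P s * aeval P (pderiv s (G e)) := by
    intro e s
    rw [mul_pderiv, Finset.sum_filter]
    refine Finset.sum_congr rfl fun μ _ => ?_
    rw [hprod]
    split_ifs
    · rfl
    · rw [mul_zero]
  -- the values
  have hev1 : ∀ e, (if γ e ≤ m' e then y (ε.symm (Sum.inr e)) else 0) -
      (if m' e ≤ γ e then aeval P (G e) else 0) = 0 := by
    intro e
    have h1 := hev e
    simp only [gra] at h1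
    rw [ev_ini_lauOf (chi_inj ε (hG e) e) (cfe_ne (G e)), hfil e, mon_none] at h1
    refine Eq.trans ?_ h1
    rw [sub_eq_add_neg]
    congr 1
    · refine if_congr Iff.rfl ?_ rfl
      show _ = algebraMap ℂ ℂ 1 * _
      rw [map_one, one_mul]
    · split_ifs
      · rw [← hsumP e, ← Finset.sum_neg_distrib]
        refine Finset.sum_congr rfl fun μ _ => ?_
        rw [mon_some]
        show _ = algebraMap ℂ ℂ (-coeff μ (G e)) * _
        rw [Algebra.algebraMap_self, RingHom.id_apply, neg_mul]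
      · rw [neg_zero]
  have hmγ : ∀ e, m' e ≤ γ e := by
    intro e
    by_contra h
    have h1 := hev1 e
    rw [if_neg h, if_pos (by omega), sub_zero] at h1
    exact hy _ h1
  have hldvr : ∀ e e', ldv (ini b (gra ε (G e) e)) (ε.symm (Sum.inr e')) y =
      if e' = e then (if γ e ≤ m' e then y (ε.symm (Sum.inr e)) else 0) else 0 := by
    intro e e'
    simp only [gra]
    rw [ldv_ini_lauOf (chi_inj ε (hG e) e) (cfe_ne (G e)), hfil e, mon_none, chi_none_inr]
    have h1 : (if m' e ≤ γ e then ∑ μ ∈ (G e).support with ok μ,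
        algebraMap ℂ ℂ (cfe (G e) (some μ)) *
          ((chi ε e (some μ) (ε.symm (Sum.inr e')) : ℤ) : ℂ) * mon y (chi ε e (some μ)) else 0) =
        0 := by
      split_ifs
      · refine Finset.sum_eq_zero fun μ _ => ?_
        rw [chi_inr]
        simp
      · rfl
    rw [h1, add_zero]
    split_ifs <;> simp [cfe]
  have hldvl : ∀ e i (j : Fin (n i)), ldv (ini b (gra ε (G e) e)) (ε.symm (Sum.inl ⟨i, j⟩)) y =
      -(P ⟨i, j.succ⟩ * aeval P (pderiv ⟨i, j.succ⟩ (G e))) := by
    intro e i j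
    simp only [gra]
    rw [ldv_ini_lauOf (chi_inj ε (hG e) e) (cfe_ne (G e)), hfil e, mon_none, chi_none_inl,
      if_pos (hmγ e), ← hsumP', ← Finset.sum_neg_distrib]
    have h1 : (if γ e ≤ m' e then algebraMap ℂ ℂ (cfe (G e) none) * ((0 : ℤ) : ℂ) *
        y (ε.symm (Sum.inr e)) else 0) = 0 := by
      split_ifs
      · simp
      · rfl
    rw [h1, zero_add]
    refine Finset.sum_congr rfl fun μ _ => ?_
    rw [chi_inl, mon_some]
    show algebraMap ℂ ℂ (-coeff μ (G e)) * _ * _ = _
    rw [Algebra.algebraMap_self, RingHom.id_apply]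
    push_cast
    ring
  -- conclusion
  rw [Fintype.linearIndependent_iff]
  intro l hl
  have hlk : ∀ k, ∑ e, l e * ldv (ini b (gra ε (G e) e)) k y = 0 := by
    intro k
    have h1 := congrFun hl k
    simpa only [Finset.sum_apply, Pi.smul_apply, smul_eq_mul, Pi.zero_apply] using h1
  have hla : ∀ e, γ e ≤ m' e → l e = 0 := by
    intro e he
    have h1 := hlk (ε.symm (Sum.inr e))
    simp only [hldvr] at h1
    rw [Finset.sum_eq_single e] at h1
    · rw [if_pos rfl, if_pos he] at h1
      exact (mul_eq_zero.1 h1).resolve_right (hy _)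
    · intro e' _ he'
      rw [if_neg he'.symm, mul_zero]
    · intro h
      exact absurd (Finset.mem_univ _) h
  have hlG : ∀ e, l e * aeval P (G e) = 0 := by
    intro e
    by_cases he : γ e ≤ m' e
    · rw [hla e he, zero_mul]
    · have h1 := hev1 e
      rw [if_neg he, if_pos (hmγ e), zero_sub, neg_eq_zero] at h1
      rw [h1, mul_zero]
  have hls : ∀ i (j : Fin (n i)),
      P ⟨i, j.succ⟩ * ∑ e, l e * aeval P (pderiv ⟨i, j.succ⟩ (G e)) = 0 := by
    intro i j
    have h1 := hlk (ε.symm (Sum.inl ⟨i, j⟩))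
    simp only [hldvl] at h1
    rw [Finset.mul_sum, ← neg_eq_zero, ← Finset.sum_neg_distrib, ← h1]
    exact Finset.sum_congr rfl fun e _ => by ring
  have hall : l = 0 := by
    refine hgood P hP l (fun e he => (mul_eq_zero.1 (hlG e)).resolve_right he) ?_
    rintro ⟨i, j⟩
    refine Fin.cases (fun hs => ?_) (fun j hs => (mul_eq_zero.1 (hls i j)).resolve_left hs) j
    have h1 : ∑ j, P ⟨i, j⟩ * ∑ e, l e * aeval P (pderiv ⟨i, j⟩ (G e)) = 0 := by
      have h2 : ∀ e, ∑ j, l e * (P ⟨i, j⟩ * aeval P (pderiv ⟨i, j⟩ (G e))) = 0 := by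
        intro e
        rw [← Finset.mul_sum, euler (hG e) P i, mul_left_comm, hlG e, mul_zero]
      have h3 : ∑ e, ∑ j, l e * (P ⟨i, j⟩ * aeval P (pderiv ⟨i, j⟩ (G e))) = 0 :=
        Finset.sum_eq_zero fun e _ => h2 e
      rw [Finset.sum_comm] at h3
      rw [← h3]
      refine Finset.sum_congr rfl fun j _ => ?_
      rw [Finset.mul_sum]
      exact Finset.sum_congr rfl fun e _ => by ring
    rw [Fin.sum_univ_succ, Finset.sum_eq_zero fun j _ => hls i j, add_zero] at h1
    exact (mul_eq_zero.1 h1).resolve_left hs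
  exact fun e => congrFun hall e

end Pool.Agent.Work.Emb
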