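import Mathlib
import Pool.Agent.Work.MP_4329d7_ag_emb.NonD2
import Pool.Agent.Work.MP_4329d7_ag_emb.Isog
import Pool.Agent.Work.MP_4329d7_ag_emb.Frame
import Pool.Agent.Work.MP_4329d7_ag_rp.MainT
import Pool.Agent.Work.MP_4329d7_ag_ci.Nondeg

/-!
# Emb: abelian covers of products of projective spaces branched along simple normal crossing
divisors are nondegenerate complete intersections in tori
-/

namespace Pool.Agent.Work.Emb

open MvPolynomial Pool.Agent.Work.Snc Pool.Agent.Work.CI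

section frame

variable {I : Type} [Fintype I] [DecidableEq I] {n : I → ℕ}

omit [Fintype I] in
theorem lch_hom (B : (i : I) → Matrix (Fin (n i + 1)) (Fin (n i + 1)) ℂ) (s : Co I n) (i : I) :
    (lch B (X : Co I n → MvPolynomial (Co I n) ℂ) s).IsWeightedHomogeneous (wt i) (wt i s) := by
  unfold lch
  refine IsWeightedHomogeneous.sum _ _ _ fun j _ => ?_
  rw [MvPolynomial.algebraMap_eq]
  exact (isWeightedHomogeneous_X ℂ (wt i) ⟨s.1, j⟩).C_mul _

theorem tr_hom (B : (i : I) → Matrix (Fin (n i + 1)) (Fin (n i + 1)) ℂ)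
    {F : MvPolynomial (Co I n) ℂ} {i : I} {d : ℕ} (hF : F.IsWeightedHomogeneous (wt i) d) :
    (tr B F).IsWeightedHomogeneous (wt i) d := by
  classical
  unfold tr
  rw [aeval_def, eval₂_eq']
  refine IsWeightedHomogeneous.sum _ _ _ fun μ hμ => ?_
  rw [MvPolynomial.algebraMap_eq]
  have h1 : ∑ s, μ s • wt i s = d := by
    have h2 := hF (mem_support_iff.1 hμ)
    rw [Finsupp.weight_apply, Finsupp.sum_fintype _ (fun s c => c • wt i s)
      (fun s => zero_smul ℕ (wt i s))] at h2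
    exact h2
  rw [← h1]
  refine IsWeightedHomogeneous.C_mul ?_ _
  refine IsWeightedHomogeneous.prod _ _ _ fun s _ => ?_
  exact (lch_hom B s i).pow (μ s)

theorem lch_lch {R : Type} [CommRing R] [Algebra ℂ R]
    {B B' : (i : I) → Matrix (Fin (n i + 1)) (Fin (n i + 1)) ℂ} (h : ∀ i, B i * B' i = 1)
    (P : Co I n → R) : lch B (lch B' P) = P := by
  funext s
  unfold lch
  simp only [Finset.mul_sum]
  change (∑ j : Fin (n s.1 + 1), ∑ l : Fin (n s.1 + 1), algebraMap ℂ R (B s.1 s.2 j) *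
    (algebraMap ℂ R (B' s.1 j l) * P ⟨s.1, l⟩)) = P s
  rw [Finset.sum_comm]
  have h1 : ∀ l, ∑ j, algebraMap ℂ R (B s.1 s.2 j) * (algebraMap ℂ R (B' s.1 j l) * P ⟨s.1, l⟩) =
      algebraMap ℂ R ((1 : Matrix (Fin (n s.1 + 1)) (Fin (n s.1 + 1)) ℂ) s.2 l) * P ⟨s.1, l⟩ := by
    intro l
    rw [← h s.1, Matrix.mul_apply, map_sum, Finset.sum_mul]
    refine Finset.sum_congr rfl fun j _ => ?_
    rw [map_mul, mul_assoc]
  rw [Finset.sum_congr rfl fun l _ => h1 l, Finset.sum_eq_single s.2]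
  · rw [Matrix.one_apply_eq, map_one, one_mul]
  · intro l _ hl
    rw [Matrix.one_apply_ne hl.symm, map_zero, zero_mul]
  · intro h
    exact absurd (Finset.mem_univ _) h

end frame

variable {K : Type} [Field K] [Algebra ℂ K] {I : Type} [Fintype I] [DecidableEq I]
  {n : I → ℕ} {E : Type} [Fintype E] {F : E → MvPolynomial (Co I n) ℂ} {d : E → I → ℕ}
  {N : ℕ} {x : (i : I) → Fin (n i) → K} {S : Set (K × (E → ℕ))}

/-- the new coordinates do not vanish -/
theorem lch_ne (Dt : SncData K I n E F d N x S)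
    {B B' : (i : I) → Matrix (Fin (n i + 1)) (Fin (n i + 1)) ℂ} (h : ∀ i, B' i * B i = 1)
    (s : Co I n) : lch B' (Uni.hom x) s ≠ 0 := by
  intro h0
  set L : MvPolynomial (Co I n) ℂ := lch B' (X : Co I n → MvPolynomial (Co I n) ℂ) s with hL
  have h1 := aeval_homX (fun p : Σ i, Fin (n i) => x p.1 p.2) L
  have h5 : aeval (Uni.hom x) L = 0 := by rw [hL, aeval_lch, h0]
  rw [show (Uni.hom fun i j => x i j) = Uni.hom x from rfl, h5] at h1
  have hLne : L ≠ 0 := by
    intro h2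
    have h3 : ∀ P : Co I n → ℂ, lch B' P s = 0 := by
      intro P
      rw [← aeval_lch, ← hL, h2, map_zero]
    have h4 := h3 (lch B (Pi.single s 1))
    rw [lch_lch h, Pi.single_eq_same] at h4
    exact one_ne_zero h4
  exact aeval_homX_ne_zero (fun i => lch_hom B' s i) hLne
    ((injective_iff_map_eq_zero _).1 Dt.alg_indep _ h1)

/-- Abelian covers of products of projective spaces branched along simple normal crossing divisors
are nondegenerate complete intersections in tori. -/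
theorem emb_snc (Dt : SncData K I n E F d N x S) :
    ∃ (t : Fin ((∑ i, n i) + Fintype.card E) → K) (f : E → Lau ((∑ i, n i) + Fintype.card E)),
      Nondegenerate f ∧ Data K (∑ i, n i) ((∑ i, n i) + Fintype.card E) E t f := by
  classical
  obtain ⟨B, hdet, hgood⟩ := exists_frame F Dt.snc
  let B' : (i : I) → Matrix (Fin (n i + 1)) (Fin (n i + 1)) ℂ := fun i => (B i)⁻¹
  have hBB' : ∀ i, B i * B' i = 1 := fun i =>
    Matrix.mul_nonsing_inv _ (isUnit_iff_ne_zero.2 (hdet i))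
  have hB'B : ∀ i, B' i * B i = 1 := fun i =>
    Matrix.nonsing_inv_mul _ (isUnit_iff_ne_zero.2 (hdet i))
  set m := ∑ i, n i with hm
  set G : E → MvPolynomial (Co I n) ℂ := fun e => tr B (F e) with hGdef
  have hG : ∀ e i, (G e).IsWeightedHomogeneous (wt i) (d e i) := fun e i => tr_hom B (Dt.hom e i)
  -- the index
  have hcard : Fintype.card ((Σ i, Fin (n i)) ⊕ E) = Fintype.card (Fin (m + Fintype.card E)) := by
    rw [Fintype.card_sum, Fintype.card_sigma, Fintype.card_fin]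
    simp only [Fintype.card_fin]
    rfl
  let ε : Fin (m + Fintype.card E) ≃ (Σ i, Fin (n i)) ⊕ E := (Fintype.equivOfCardEq hcard).symm
  -- the coordinates
  set Xc : Co I n → K := lch B' (Uni.hom x) with hXc
  have hXc0 : ∀ s, Xc s ≠ 0 := fun s => lch_ne Dt hB'B s
  have hBX : lch B Xc = Uni.hom x := lch_lch hBB' _
  have hFG : ∀ e, aeval Xc (G e) = aeval (Uni.hom x) (F e) := fun e => by
    rw [hGdef, aeval_tr, hBX]
  have hFne : ∀ e, aeval (Uni.hom x) (F e) ≠ 0 := fun e => Dt.aeval_ne_zero e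
  let den : E → K := fun e => ∏ i, Xc ⟨i, 0⟩ ^ d e i
  have hden : ∀ e, den e ≠ 0 := fun e => Finset.prod_ne_zero_iff.2 fun i _ => pow_ne_zero _ (hXc0 _)
  let X' : Fin (m + Fintype.card E) → K := fun k =>
    Sum.elim (fun p => Xc ⟨p.1, p.2.succ⟩ / Xc ⟨p.1, 0⟩) (fun e => aeval (Uni.hom x) (F e) / den e)
      (ε k)
  have hX'l : ∀ p, X' (ε.symm (Sum.inl p)) = Xc ⟨p.1, p.2.succ⟩ / Xc ⟨p.1, 0⟩ := fun p => by
    simp only [X', Equiv.apply_symm_apply, Sum.elim_inl]
  have hX'r : ∀ e, X' (ε.symm (Sum.inr e)) = aeval (Uni.hom x) (F e) / den e := fun e => by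
    simp only [X', Equiv.apply_symm_apply, Sum.elim_inr]
  have hX'0 : ∀ k, X' k ≠ 0 := by
    intro k
    obtain ⟨k', rfl⟩ := ε.symm.surjective k
    rcases k' with p | e
    · rw [hX'l]
      exact div_ne_zero (hXc0 _) (hXc0 _)
    · rw [hX'r]
      exact div_ne_zero (hFne e) (hden e)
  have hhmc : ∀ s : Co I n, Xc ⟨s.1, 0⟩ * hmc ε 1 X' s = Xc s := by
    rintro ⟨i, j⟩
    refine Fin.cases ?_ (fun j => ?_) j
    · rw [hmc_zero, mul_one]
    · rw [hmc_succ, hX'l, mul_div_cancel₀ _ (hXc0 _)]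
  have hev : ∀ e, ev (gra ε (G e) e) X' = 0 := by
    intro e
    rw [ev_gra ε (hG e), hX'r, sub_eq_zero, div_eq_iff (hden e), ← hFG, mul_comm]
    have h1 := multihom_scale (hG e) (fun i => Xc ⟨i, 0⟩) (hmc ε 1 X')
    rw [← h1]
    congr 1
    have h2 : (fun s : Co I n => Xc ⟨s.1, 0⟩ * hmc ε 1 X' s) = Xc := funext hhmc
    rw [h2]
  have hnd : Nondegenerate fun e => gra ε (G e) e := nondegenerate_gra ε G d hG hgood
  -- the radicals
  let q : (E → ℕ) → I → ℕ := fun c i => (∑ e, c e * d e i) / N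
  let Z : Set K := {z' | ∃ z c, (z, c) ∈ S ∧ z' = z / ∏ i, Xc ⟨i, 0⟩ ^ q c i}
  have hZ : ∀ z' ∈ Z, ∃ v : Fin (m + Fintype.card E) → ℤ, z' ^ N = mon X' v := by
    rintro z' ⟨z, c, hzc, rfl⟩
    refine ⟨fun k => Sum.elim (fun _ => 0) (fun e => (c e : ℤ)) (ε k), ?_⟩
    have h1 : mon X' (fun k => Sum.elim (fun _ => 0) (fun e => (c e : ℤ)) (ε k)) =
        ∏ e, (aeval (Uni.hom x) (F e) / den e) ^ c e := by
      unfold mon
      rw [prod_eps ε]
      simp only [Equiv.apply_symm_apply, Sum.elim_inl, Sum.elim_inr, zpow_zero,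
        Finset.prod_const_one, one_mul, hX'r, zpow_natCast]
    rw [h1, div_pow, Dt.rad z c hzc]
    simp only [div_pow, Finset.prod_div_distrib]
    congr 1
    have h2 : ∀ i, q c i * N = ∑ e, c e * d e i := fun i => Nat.div_mul_cancel (Dt.deg z c hzc i)
    rw [← Finset.prod_pow]
    simp only [← pow_mul, h2, den, ← Finset.prod_pow]
    rw [Finset.prod_comm]
    refine Finset.prod_congr rfl fun i _ => ?_
    rw [Finset.prod_pow_eq_pow_sum]
    congr 1
    exact Finset.sum_congr rfl fun e _ => mul_comm _ _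
  have hgen : IntermediateField.adjoin ℂ (Set.range X' ∪ Z) = ⊤ := by
    set L := IntermediateField.adjoin ℂ (Set.range X' ∪ Z) with hL
    have hXmem : ∀ k, X' k ∈ L := fun k =>
      IntermediateField.subset_adjoin ℂ _ (Or.inl ⟨k, rfl⟩)
    have hratio : ∀ s : Co I n, Xc s / Xc ⟨s.1, 0⟩ ∈ L := by
      rintro ⟨i, j⟩
      refine Fin.cases ?_ (fun j => ?_) j
      · rw [div_self (hXc0 _)]
        exact one_mem _
      · rw [← hX'l ⟨i, j⟩]
        exact hXmem _
    have hquot : ∀ s : Co I n, Uni.hom x s / Xc ⟨s.1, 0⟩ ∈ L := by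
      intro s
      rw [← hBX]
      unfold lch
      rw [Finset.sum_div]
      refine sum_mem fun j _ => ?_
      rw [mul_div_assoc]
      exact mul_mem (IntermediateField.algebraMap_mem _ _) (hratio ⟨s.1, j⟩)
    have hzero : ∀ i, Xc ⟨i, 0⟩ ∈ L := by
      intro i
      have h1 := hquot ⟨i, 0⟩
      have h2 : Uni.hom x (⟨i, 0⟩ : Co I n) = 1 := by simp [Uni.hom]
      rw [h2] at h1
      have h3 := inv_mem h1
      rwa [one_div, inv_inv] at h3
    have hhom : ∀ s, Uni.hom x s ∈ L := by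
      intro s
      have h1 := mul_mem (hquot s) (hzero s.1)
      rwa [div_mul_cancel₀ _ (hXc0 _)] at h1
    rw [eq_top_iff, ← Dt.gen, IntermediateField.adjoin_le_iff]
    rintro z (⟨p, rfl⟩ | ⟨c, hc⟩)
    · have h1 := hhom ⟨p.1, p.2.succ⟩
      simpa [Uni.hom] using h1
    · have h1 : z / ∏ i, Xc ⟨i, 0⟩ ^ q c i ∈ L :=
        IntermediateField.subset_adjoin ℂ _ (Or.inr ⟨z, c, hc, rfl⟩)
      have h2 : ∏ i, Xc ⟨i, 0⟩ ^ q c i ∈ L := prod_mem fun i _ => pow_mem (hzero i) _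
      have h3 := mul_mem h1 h2
      rwa [div_mul_cancel₀ _ (Finset.prod_ne_zero_iff.2 fun i _ => pow_ne_zero _ (hXc0 _))] at h3
  obtain ⟨t, f, h1, h2, h3, h4⟩ := isog X' (fun e => gra ε (G e) e) hX'0 hnd hev N Dt.N_pos Z hZ hgen
  exact ⟨t, f, h2, data_of_nondegenerate h2 h1 h4 h3 (RP.trdeg_eq Dt) rfl⟩

end Pool.Agent.Work.Emb
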