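import Mathlib
import Pool.Agent.Work.MP_4329d7_ag_emb.EmbSnc
import Pool.Agent.Work.MP_4329d7_ag_rp.MainTE
import Pool.Agent.Work.MP_4329d7_ag_wrc.Main

/-!
# Emb: rational connectedness of abelian covers of products of projective spaces branched along
simple normal crossing divisors, with explicit exponents
-/

namespace Pool.Agent.Work.Emb

open MvPolynomial Pool.Agent.Work.Snc Pool.Agent.Work.CI Pool.Agent.Work.Uni Pool.Agent.Work.WRC
open Pool.Agent.Work.MP_4329d7_ag.FF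

theorem rc_snc (m : ℕ) (hm0 : 0 < m)
    (K : Type) [Field K] [Algebra ℂ K] [Algebra.EssFiniteType ℂ K]
    (I : Type) [Fintype I] [DecidableEq I] (n : I → ℕ) (E : Type) [Fintype E] [DecidableEq E]
    (F : E → MvPolynomial (Co I n) ℂ) (d : E → I → ℕ) (N : ℕ) (x : (i : I) → Fin (n i) → K)
    (S : Set (K × (E → ℕ))) (D : SncData K I n E F d N x S) (hm : ∑ i, n i = m)
    (hT : ∀ M, 0 < M → M ≤ (7 * m) ^ (3 * 8 ^ m) → ∃ l, 0 < l ∧ ∀ j, 1 ≤ j → j ≤ m →
      ∀ T : TensorForm K (l * M * j), IsPluricanonical (l * M) j T → IsRegular T → T = 0) :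
    RationallyConnected K := by
  obtain ⟨t, f, nd, Dt⟩ := emb_snc D
  refine rc_of_uniruled Dt nd fun K' hK' => ?_
  have h1 := trdeg_le_of_injective K'.val (RingHom.injective _)
  rw [Dt.trdeg] at h1
  obtain ⟨p, hp⟩ := Cardinal.lt_aleph0.1 (lt_of_le_of_lt h1 (Cardinal.natCast_lt_aleph0))
  have hp1 : 1 ≤ p := by
    rcases Nat.eq_zero_or_pos p with h2 | h2
    · rw [h2, Nat.cast_zero] at hp
      exact absurd hp hK'
    · exact h2
  refine RP.main_tensor_eff m hm0 K I n E F d N x S D hm K' p hp fun M hM hMB => ?_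
  obtain ⟨l, hl, h⟩ := hT M hM hMB
  exact ⟨l, hl, fun j hj => h j (hp1.trans hj)⟩

end Pool.Agent.Work.Emb
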