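import Mathlib
import Pool.Agent.Work.MP_4329d7_ag_rp.KJ

/-!
# Emb: `exists_data` of `MP_4329d7_ag_rp/KJ.lean` with the coordinates of the factors
-/

namespace Pool.Agent.Work.Emb

open Pool.Agent.Work.Snc (SncData Co)
open Pool.Agent.Work.RP Pool.Agent.Work

variable {K : Type} [Field K] [Algebra ℂ K] {I : Type} [Fintype I] [DecidableEq I] {n : I → ℕ}
  {E : Type} [Fintype E] [DecidableEq E] {F : E → MvPolynomial (Co I n) ℂ} {d : E → I → ℕ}
  {N : ℕ} {x : (i : I) → Fin (n i) → K} {S : Set (K × (E → ℕ))}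

/-- `exists_data` of `MP_4329d7_ag_rp/KJ.lean` (same proof), with the coordinates -/
theorem exists_data_x (D : SncData K I n E F d N x S) (J : Set I) [Fintype J] :
    ∃ (E' : Type) (_ : Fintype E') (F' : E' → MvPolynomial (Co J fun i => n i) ℂ)
      (d' : E' → J → ℕ) (x' : (i : J) → Fin (n i) → KJ x J) (S' : Set (KJ x J × (E' → ℕ))),
      SncData (KJ x J) J (fun i => n i) E' F' d' N x' S' ∧
        ∀ i j, ((x' i j : KJ x J) : K) = x i j := by
  classical
  set a : E → K := fun e => MvPolynomial.aeval (Uni.hom x) (F e) with hadef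
  have ha : ∀ e, a e ≠ 0 := fun e => D.aeval_ne_zero e
  let p : E → Prop := fun e => ∀ i, i ∉ J → d e i = 0
  have hex : ∀ e : {e // p e}, ∃ G : MvPolynomial (Co J fun i => n i) ℂ,
      MvPolynomial.rename (kjι J) G = F e.1 := fun e => kj_exists (D.hom e.1) J e.2
  choose G hG using hex
  let x' : (i : J) → Fin (n i) → KJ x J := fun i j => ⟨x i j, kj_le x J (x_mem x J i i.2 j)⟩
  have hhom : ∀ s : Co J fun i => n i, ((Uni.hom x' s : KJ x J) : K) = Uni.hom x (kjι J s) := by
    rintro ⟨i, j⟩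
    refine Fin.cases ?_ (fun j => ?_) j
    · simp [Uni.hom, kjι]
    · simp [Uni.hom, kjι, x']
  have hval : ∀ e : {e // p e}, ((MvPolynomial.aeval (Uni.hom x') (G e) : KJ x J) : K) = a e.1 := by
    intro e
    have h2 := MvPolynomial.comp_aeval_apply (R := ℂ) (Uni.hom x')
      (IntermediateField.val (KJ x J)) (G e)
    rw [hadef]
    simp only
    rw [← hG e, MvPolynomial.aeval_rename]
    refine Eq.trans h2 ?_
    congr 2
    funext s
    exact hhom s
  have haJ : ∀ e : {e // p e}, a e.1 ∈ FJ x J := by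
    intro e
    rw [hadef]
    simp only
    rw [← hG e, MvPolynomial.aeval_rename]
    refine kj_aeval_mem _ _ (fun s => ?_) _
    obtain ⟨i, j⟩ := s
    refine Fin.cases ?_ (fun j => ?_) j
    · simp only [Function.comp_apply, kjι, Uni.hom, Fin.cons_zero]
      exact one_mem _
    · simp only [Function.comp_apply, kjι, Uni.hom, Fin.cons_succ]
      exact x_mem x J i i.2 j
  -- the radicals
  let S₀ : K → ({e // p e} → ℕ) → Prop := fun z c => z ∈ KJ x J ∧
    z ^ N = ∏ e : {e // p e}, a e.1 ^ c e ∧ ∀ i : J, N ∣ ∑ e : {e // p e}, c e * d e.1 i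
  let q : {e // p e} → Prop := fun e => ∃ z c, S₀ z c ∧ ¬ N ∣ c e
  let S' : Set (KJ x J × ({e // q e} → ℕ)) := {zc | (zc.1 : K) ^ N =
    ∏ e : {e // q e}, a e.1.1 ^ zc.2 e ∧ ∀ i : J, N ∣ ∑ e : {e // q e}, zc.2 e * d e.1.1 i}
  have hS : ∀ z c, S₀ z c → ∃ z' : KJ x J, ∃ w ∈ FJ x J, z = z' * w ∧
      (z', fun e : {e // q e} => c e.1) ∈ S' := by
    rintro z c ⟨h1, h2, h3⟩
    have hc : ∀ e, ¬ q e → N ∣ c e := by
      intro e he
      by_contra hcon
      exact he ⟨z, c, ⟨h1, h2, h3⟩, hcon⟩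
    set w : K := ∏ e : {e // ¬ q e}, a e.1.1 ^ (c e.1 / N) with hw
    have hw0 : w ≠ 0 := Finset.prod_ne_zero_iff.2 fun e _ => pow_ne_zero _ (ha _)
    have hwJ : w ∈ FJ x J := prod_mem fun e _ => pow_mem (haJ e.1) _
    refine ⟨⟨z / w, div_mem h1 (kj_le x J hwJ)⟩, w, hwJ, ?_, ?_, ?_⟩
    · simp only
      rw [div_mul_cancel₀ _ hw0]
    · exact kj_trim q (fun e => a e.1) (fun e => ha e.1) z c h2 hc
    · exact fun i => kj_dvd q c (fun e => d e.1 i) (h3 i) hc
  refine ⟨{e // q e}, inferInstance, fun e => G e.1, fun e i => d e.1.1 i, x', S', ?_,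
    fun _ _ => rfl⟩
  refine
    { N_pos := D.N_pos
      n_pos := fun i => D.n_pos i
      hom := fun e i => ?_
      snc := fun P hP => ?_
      nonempty := fun e => ?_
      alg_indep := ?_
      rad := fun z c hz => ?_
      deg := fun z c hz => hz.2
      gen := ?_
      branch := fun e => ?_ }
  · refine kj_hom J ?_
    rw [hG]
    exact D.hom e.1.1 i
  · -- normal crossings
    let P' : Co I n → ℂ := fun s => if h : s.1 ∈ J then P ⟨⟨s.1, h⟩, s.2⟩ else 1
    have hPι : P' ∘ kjι J = P := by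
      funext s
      exact dif_pos s.1.2
    have hP' : Snc.IsPoint P' := by
      intro i
      by_cases hi : i ∈ J
      · obtain ⟨j, hj⟩ := hP ⟨i, hi⟩
        refine ⟨j, ?_⟩
        simp only [P', hi, dif_pos]
        exact hj
      · refine ⟨0, ?_⟩
        simp only [P', hi]
        simp
    have hev : ∀ Q : MvPolynomial (Co J fun i => n i) ℂ,
        MvPolynomial.eval P' (MvPolynomial.rename (kjι J) Q) = MvPolynomial.eval P Q := by
      intro Q
      rw [MvPolynomial.eval_rename, hPι]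
    have h1 := (D.snc P' hP').comp
      (fun e : {e : {e // q e} // MvPolynomial.eval P (G e.1) = 0} =>
        (⟨e.1.1.1, by rw [← hG, hev]; exact e.2⟩ : {e // MvPolynomial.eval P' (F e) = 0}))
      (fun e e' h => Subtype.ext (Subtype.ext (Subtype.ext
        (congrArg (fun z : {e // MvPolynomial.eval P' (F e) = 0} => z.1) h))))
    refine LinearIndependent.of_comp (Function.ExtendByZero.linearMap ℂ (kjι (n := n) J)) ?_
    refine Eq.mp ?_ h1
    congr 1
    funext e
    funext s
    simp only [Function.comp_apply, Function.ExtendByZero.linearMap_apply]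
    rw [← hG]
    by_cases hs : ∃ s', kjι J s' = s
    · obtain ⟨s', rfl⟩ := hs
      rw [(kj_inj J).extend_apply, MvPolynomial.pderiv_rename (kj_inj J), hev]
    · rw [Function.extend_apply' _ _ _ hs, MvPolynomial.pderiv_eq_zero_of_notMem_vars, map_zero]
      · rfl
      · intro h
        have h2 := MvPolynomial.vars_rename (kjι J) (G e.1.1) h
        rw [Finset.mem_image] at h2
        obtain ⟨s', -, hs'⟩ := h2
        exact hs ⟨s', hs'⟩
  · obtain ⟨P, hP, hPF⟩ := D.nonempty e.1.1
    refine ⟨P ∘ kjι J, fun i => ?_, ?_⟩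
    · obtain ⟨j, hj⟩ := hP i
      exact ⟨j, hj⟩
    · rw [← MvPolynomial.eval_rename, hG]
      exact hPF
  · refine AlgebraicIndependent.of_comp (IntermediateField.val (KJ x J)) ?_
    exact D.alg_indep.comp (fun p : Σ i : J, Fin (n i) => (⟨p.1.1, p.2⟩ : Σ i, Fin (n i)))
      (by
        rintro ⟨⟨i, hi⟩, j⟩ ⟨⟨i', hi'⟩, j'⟩ h
        obtain ⟨h1, h2⟩ := Sigma.mk.inj h
        simp only at h1
        subst h1
        have h3 : j = j' := eq_of_heq h2
        subst h3
        rfl)
  · apply Subtype.val_injective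
    have h1 := hz.1
    simp only at h1
    have h2 : ((∏ e : {e // q e}, MvPolynomial.aeval (Uni.hom x') (G e.1) ^ c e : KJ x J) : K) =
        ∏ e : {e // q e}, a e.1.1 ^ c e := by
      have h3 := map_prod (IntermediateField.val (KJ x J))
        (fun e : {e // q e} => MvPolynomial.aeval (Uni.hom x') (G e.1) ^ c e) Finset.univ
      refine Eq.trans h3 (Finset.prod_congr rfl fun e _ => ?_)
      rw [map_pow]
      congr 1
      exact hval e.1
    rw [h2, ← h1]
    rfl
  · -- the generators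
    set L : IntermediateField ℂ (KJ x J) := IntermediateField.adjoin ℂ
      (Set.range (fun p : Σ i : J, Fin (n i) => x' p.1 p.2) ∪ {z | ∃ c, (z, c) ∈ S'}) with hL
    have hFL : FJ x J ≤ IntermediateField.lift L := by
      unfold FJ
      rw [IntermediateField.adjoin_le_iff]
      rintro _ ⟨i, hi, j, rfl⟩
      refine (IntermediateField.mem_lift (x' ⟨i, hi⟩ j)).2 ?_
      exact IntermediateField.subset_adjoin _ _ (Or.inl ⟨⟨⟨i, hi⟩, j⟩, rfl⟩)
    have hSL : ∀ z c, S₀ z c → z ∈ IntermediateField.lift L := by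
      intro z c h
      obtain ⟨z', w, hw, h1, h2⟩ := hS z c h
      rw [h1]
      refine mul_mem ((IntermediateField.mem_lift z').2 ?_) (hFL hw)
      exact IntermediateField.subset_adjoin _ _ (Or.inr ⟨_, h2⟩)
    rw [eq_top_iff]
    rintro ⟨u, hu⟩ -
    refine (IntermediateField.mem_lift _).1 ?_
    simp only
    rw [mem_KJ] at hu
    have hhomu : ∀ s, Uni.hom x s ∈ FJ x Set.univ := by
      rintro ⟨i, s⟩
      unfold Uni.hom
      refine Fin.cases ?_ (fun j => ?_) s
      · simp only [Fin.cons_zero]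
        exact one_mem _
      · simp only [Fin.cons_succ]
        exact x_mem x _ i (Set.mem_univ i) j
    have hau : ∀ e, a e ∈ FJ x Set.univ := fun e => kj_aeval_mem _ _ hhomu _
    have hk := kummer_alg (FJ x Set.univ) (FJ x J) (oj_le x J) N D.N_pos {z | ∃ c, (z, c) ∈ S}
      (by
        rintro z ⟨c, hc⟩
        rw [D.rad z c hc]
        exact prod_mem fun e _ => pow_mem (hau e) _)
      (by
        rw [eq_top_iff, ← D.gen, IntermediateField.adjoin_le_iff]
        rintro w (⟨p, rfl⟩ | hw)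
        · exact IntermediateField.subset_adjoin _ _ (Or.inl (x_mem x _ p.1 (Set.mem_univ _) p.2))
        · exact IntermediateField.subset_adjoin _ _ (Or.inr hw)) u hu
    refine AddSubmonoid.closure_induction (fun v hv => ?_) (zero_mem _)
      (fun _ _ _ _ h1 h2 => add_mem h1 h2) hk
    obtain ⟨hvalg, f, hf, z, hz, rfl⟩ := hv
    by_cases hf0 : f = 0
    · rw [hf0, zero_mul]
      exact zero_mem _
    have hzc : ∃ c : E → ℕ, z ^ N = ∏ e, a e ^ c e ∧ ∀ i, N ∣ ∑ e, c e * d e i := by
      refine Submonoid.closure_induction (fun z hz => ?_) ?_ (fun z1 z2 _ _ h1 h2 => ?_) hz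
      · obtain ⟨c, hc⟩ := hz
        exact ⟨c, D.rad z c hc, D.deg z c hc⟩
      · exact ⟨0, by simp, by simp⟩
      · obtain ⟨c1, h1, h1'⟩ := h1
        obtain ⟨c2, h2, h2'⟩ := h2
        refine ⟨c1 + c2, ?_, fun i => ?_⟩
        · rw [mul_pow, h1, h2, ← Finset.prod_mul_distrib]
          exact Finset.prod_congr rfl fun e _ => (pow_add _ _ _).symm
        · have h3 : ∑ e, (c1 + c2) e * d e i = ∑ e, c1 e * d e i + ∑ e, c2 e * d e i := by
            rw [← Finset.sum_add_distrib]
            exact Finset.sum_congr rfl fun e _ => by rw [Pi.add_apply, add_mul]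
          rw [h3]
          exact dvd_add (h1' i) (h2' i)
    obtain ⟨c, hzN, hcd⟩ := hzc
    have hc : ∀ e, ¬ p e → N ∣ c e := by
      intro e he
      refine dvd_of_alg D J f z c hf hf0 hzN hcd hvalg e ?_
      by_contra hcon
      apply he
      intro i hi
      by_contra h0
      exact hcon ⟨i, hi, Nat.pos_of_ne_zero h0⟩
    set w : K := ∏ e : {e // ¬ p e}, a e.1 ^ (c e.1 / N) with hw
    have hw0 : w ≠ 0 := Finset.prod_ne_zero_iff.2 fun e _ => pow_ne_zero _ (ha _)
    have hwu : w ∈ FJ x Set.univ := prod_mem fun e _ => pow_mem (hau e.1) _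
    have h1 := kj_trim p a ha z c hzN hc
    rw [← hw] at h1
    have h2 : z / w ∈ KJ x J := by
      rw [mem_KJ]
      refine IsAlgebraic.of_pow D.N_pos ?_
      rw [h1]
      exact isAlgebraic_algebraMap (⟨_, prod_mem fun e _ => pow_mem (haJ e) _⟩ : FJ x J)
    have h3 : z / w ∈ IntermediateField.lift L :=
      hSL (z / w) (fun e => c e.1) ⟨h2, h1, fun i => kj_dvd p c (fun e => d e i) (hcd i) hc⟩
    have hz0 : z ≠ 0 := by
      rintro rfl
      rw [zero_pow D.N_pos.ne'] at hzN
      exact (Finset.prod_ne_zero_iff.2 fun e _ => pow_ne_zero (c e) (ha e)) hzN.symm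
    have h4 : f * w = f * z / (z / w) := by
      field_simp
    have h5 : f * w ∈ FJ x J := by
      refine mem_FJ_of_isAlgebraic D.alg_indep J _ (mul_mem hf hwu) ?_
      rw [← mem_KJ, h4]
      exact div_mem ((mem_KJ x J _).2 hvalg) h2
    have h6 : f * z = f * w * (z / w) := by
      field_simp
    rw [h6]
    exact mul_mem (hFL h5) h3
  · obtain ⟨z, c, h1, h2⟩ := e.2
    obtain ⟨z', w, hw, h3, h4⟩ := hS z c h1
    exact ⟨z', _, h4, h2⟩

end Pool.Agent.Work.Emb
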