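import Mathlib
import Pool.Agent.Work.MP_4329d7_ag.RUni
import Pool.Agent.Work.MP_4329d7_ag_ci.Pull
import Pool.Agent.Work.MP_4329d7_ag_uni.Defs

/-!
# Emb: uniruled fields have no nonzero regular block alternating tensor forms of top degree
-/

namespace Pool.Agent.Work.Emb

open WithZero Polynomial Pool.Agent.Work.MP_4329d7_ag.FF Pool.Agent.Work.MP_4329d7_ag.R
open Pool.Agent.Work.Uni

/-- a regular tensor form of `E(t)` vanishes if one of the arguments is `d/dt` -/
theorem form_eq_zero {E : Type} [Field E] [Algebra ℂ E] [DecidableEq (RatFunc E)] {m : ℕ}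
    (T : TensorForm (RatFunc E) m)
    (hT : IsRegular T) (D : Fin m → Derivation ℂ (RatFunc E) (RatFunc E)) (s₀ : Fin m)
    (hpoly : ∀ a, ∀ p : E[X], ∃ q : E[X], D a (algebraMap E[X] (RatFunc E) p) =
      algebraMap E[X] (RatFunc E) q)
    (hinf : ∀ a, ∀ p : E[X], RatFunc.inftyValuation E (D a (algebraMap E[X] (RatFunc E) p))
      ≤ RatFunc.inftyValuation E (algebraMap E[X] (RatFunc E) p))
    (hinf₀ : ∀ p : E[X],
      RatFunc.inftyValuation E (RatFunc.X * D s₀ (algebraMap E[X] (RatFunc E) p))
      ≤ RatFunc.inftyValuation E (algebraMap E[X] (RatFunc E) p)) :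
    T D = 0 := by
  classical
  have hCC : ∀ z : ℂ, algebraMap ℂ (RatFunc E) z =
      algebraMap E[X] (RatFunc E) (C (algebraMap ℂ E z)) := by
    intro z
    rw [IsScalarTower.algebraMap_apply ℂ E[X] (RatFunc E)]
    rfl
  -- finite places
  have hfin : ∀ Q : IsDedekindDomain.HeightOneSpectrum E[X],
      Q.valuation (RatFunc E) (T D) ≤ 1 := by
    intro Q
    obtain ⟨r, c, g, hc, hg, h⟩ := hT (Q.valuation (RatFunc E)) (fun z => by
      rw [hCC]; exact Q.valuation_le_one _)
    rw [h]
    refine Valuation.map_sum_le _ fun i _ => ?_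
    rw [map_mul, map_prod]
    refine mul_le_one' (hc i) (Finset.prod_le_one' fun j _ => ?_)
    exact preserve_finite Q (D j) (hpoly j) _ (hg i j)
  obtain ⟨q, hq⟩ := IsDedekindDomain.HeightOneSpectrum.mem_integers_of_valuation_le_one
    (RatFunc E) (T D) hfin
  -- infinity
  have hlog : ∀ a f, RatFunc.inftyValuation E (D a f) ≤ RatFunc.inftyValuation E f :=
    fun a f => preserve_log (D a) (hinf a) f
  have hlog₀ : ∀ f, RatFunc.inftyValuation E (RatFunc.X * D s₀ f) ≤
      RatFunc.inftyValuation E f := fun f =>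
    preserve_log ((RatFunc.X : RatFunc E) • D s₀) (fun p => by
      rw [Derivation.smul_apply, smul_eq_mul]; exact hinf₀ p) f
  have hinfv : RatFunc.inftyValuation E (RatFunc.X * T D) ≤ 1 := by
    obtain ⟨r, c, g, hc, hg, h⟩ := hT (RatFunc.inftyValuation E) (fun z => by
      by_cases h0 : z = 0
      · rw [h0, map_zero, map_zero]; exact zero_le
      · rw [hCC, RatFunc.inftyValuation_apply, RatFunc.inftyValuation.polynomial E
          (by rwa [Ne, C_eq_zero, map_eq_zero]), natDegree_C]
        rfl)
    rw [h, Finset.mul_sum]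
    refine Valuation.map_sum_le _ fun i _ => ?_
    have h1 : RatFunc.X * (c i * ∏ j, D j (g i j)) = c i * (RatFunc.X * D s₀ (g i s₀) *
        ∏ j ∈ Finset.univ.erase s₀, D j (g i j)) := by
      rw [← Finset.mul_prod_erase Finset.univ _ (Finset.mem_univ s₀)]
      ring
    rw [h1, map_mul, map_mul, map_prod]
    refine mul_le_one' (hc i) (mul_le_one' ((hlog₀ _).trans (hg i s₀))
      (Finset.prod_le_one' fun j _ => (hlog j _).trans (hg i j)))
  by_contra hne
  have hq0 : q ≠ 0 := by
    rintro rfl
    rw [map_zero] at hq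
    exact hne hq.symm
  rw [map_mul, RatFunc.inftyValuation.X, ← hq, RatFunc.inftyValuation_apply,
    RatFunc.inftyValuation.polynomial E hq0, ← exp_add, ← exp_zero] at hinfv
  have := exp_le_exp.1 hinfv
  have h3 : (0 : ℤ) ≤ (q.natDegree : ℤ) := Int.natCast_nonneg _
  omega

/-- the pullback of a block alternating form is block alternating -/
theorem pull_pluri {F K : Type} [Field F] [Algebra ℂ F] [Field K] [Algebra ℂ K] [Algebra F K]
    [IsScalarTower ℂ F K] {M p : ℕ} {I : Type} [Fintype I] [DecidableEq I] (Fr : Frame F I)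
    (T : TensorForm F (M * p)) (hp : IsPluricanonical M p T) :
    IsPluricanonical M p (ratExt_form (L := K) Fr T) := by
  classical
  intro D a i j hij hD
  set P := finProdFinEquiv (a, i) with hP
  set Q := finProdFinEquiv (a, j) with hQ
  have hPQ : P ≠ Q := fun h => hij (congrArg Prod.snd (finProdFinEquiv.injective h))
  have hv : ∀ v : Fin (M * p) → Derivation ℂ F F, v P = v Q → T v = 0 := fun v h =>
    hp v a i j hij h
  rw [ratExt_form_apply]
  have hDs : ∀ s', D (Equiv.swap P Q s') = D s' := by
    intro s'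
    by_cases h1 : s' = P
    · rw [h1, Equiv.swap_apply_left, hD]
    · by_cases h2 : s' = Q
      · rw [h2, Equiv.swap_apply_right, hD]
      · rw [Equiv.swap_apply_of_ne_of_ne h1 h2]
  refine Finset.sum_involution (fun w _ => fun s' => w (Equiv.swap P Q s')) ?_ ?_ ?_ ?_
  · intro w _
    have h1 : ∏ s', D s' (algebraMap F K (Fr.z (w (Equiv.swap P Q s')))) =
        ∏ s', D s' (algebraMap F K (Fr.z (w s'))) := by
      rw [← Equiv.prod_comp (Equiv.swap P Q) (fun s' => D s' (algebraMap F K (Fr.z (w s'))))]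
      exact Finset.prod_congr rfl fun s' _ => by rw [hDs s']
    have h2 : T (fun s' => Fr.d (w (Equiv.swap P Q s'))) = - T (fun s' => Fr.d (w s')) :=
      CI.PullAux.swap_neg T hPQ hv (fun s' => Fr.d (w s'))
    rw [h1, h2, map_neg, mul_neg, add_neg_cancel]
  · intro w _ hne h1
    apply hne
    have h2 : w Q = w P := by
      have := congrFun h1 P
      simpa [Equiv.swap_apply_left] using this
    have h3 : T (fun s' => Fr.d (w s')) = 0 := hv _ (by rw [h2])
    rw [h3, map_zero, mul_zero]
  · intro w _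
    exact Finset.mem_univ _
  · intro w _
    funext s'
    change w (Equiv.swap P Q (Equiv.swap P Q s')) = w s'
    rw [← Equiv.Perm.mul_apply, Equiv.swap_mul_self]
    rfl

/-- a frame indexed by `Fin p` -/
theorem exists_frame_fin {K : Type} [Field K] [Algebra ℂ K] {p : ℕ}
    (htr : Algebra.trdeg ℂ K = p) : Nonempty (Frame K (Fin p)) := by
  classical
  obtain ⟨s, hs⟩ := exists_isTranscendenceBasis ℂ K
  have hcard : Cardinal.mk s = p := by rw [hs.cardinalMk_eq_trdeg, htr]
  have : Finite s := by
    rw [← Cardinal.lt_aleph0_iff_finite, hcard]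
    exact Cardinal.natCast_lt_aleph0
  let _ : Fintype s := Fintype.ofFinite s
  have hc : Fintype.card s = p := by
    rw [Cardinal.mk_fintype] at hcard
    exact_mod_cast hcard
  let e : Fin p ≃ s := (Fintype.equivFinOfCardEq hc).symm
  obtain ⟨Fr, -⟩ := ratExt_exists_frame (K := K) (fun i => (e i : K)) (hs.comp_equiv e)
  exact ⟨Fr⟩

/-- a uniruled field has no nonzero regular block alternating tensor form of top degree -/
theorem no_forms {K : Type} [Field K] [Algebra ℂ K] (hU : Uniruled K) {M p : ℕ} (hM : 0 < M)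
    (htr : Algebra.trdeg ℂ K = p) (T : TensorForm K (M * p)) (hp : IsPluricanonical M p T)
    (hT : IsRegular T) : T = 0 := by
  classical
  by_contra hT0
  obtain ⟨E, _, _, φ, hE, y, hy⟩ := hU
  let _ : Algebra K (RatFunc E) := φ.toRingHom.toAlgebra
  have : IsScalarTower ℂ K (RatFunc E) :=
    IsScalarTower.of_algebraMap_eq fun c => (φ.commutes c).symm
  have hφ : ∀ g : K, algebraMap K (RatFunc E) g = φ g := fun _ => rfl
  obtain ⟨Fr⟩ := exists_frame_fin htr
  have hYind : AlgebraicIndependent ℂ (fun b : Fin p => φ (Fr.z b)) :=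
    Fr.tb.1.map' φ.toRingHom.injective
  -- transcendence basis of E
  obtain ⟨s, hs⟩ := exists_finset_isTranscendenceBasis ℂ E
  set e : s → E := (↑) with he
  have hw := transcendenceBasis_ratFunc (E := E) hs
  set w : Unit ⊕ s → RatFunc E :=
    Sum.elim (fun _ : Unit => (RatFunc.X : RatFunc E)) (algebraMap E (RatFunc E) ∘ e) with hwdef
  have hDex : ∀ i : Unit ⊕ s, ∃ D : Derivation ℂ (RatFunc E) (RatFunc E), ∀ j, D (w j) =
      if i = j then 1 else 0 := fun i => exists_derivation hw _
  choose D hD using hDex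
  -- the derivation d/dt
  have hX1 : D (Sum.inl ()) RatFunc.X = 1 := by
    have := hD (Sum.inl ()) (Sum.inl ())
    simpa [hwdef] using this
  have hX0 : ∀ j : s, D (Sum.inr j) RatFunc.X = 0 := by
    intro j
    have := hD (Sum.inr j) (Sum.inl ())
    simpa [hwdef] using this
  have hCe : ∀ (i : Unit ⊕ s) (j : s), D i (RatFunc.C (e j)) = if i = Sum.inr j then 1 else 0 := by
    intro i j
    exact hD i (Sum.inr j)
  have hC0 : ∀ c : E, D (Sum.inl ()) (RatFunc.C c) = 0 := by
    have h1 : (D (Sum.inl ())).compAlgebraMap E = 0 := by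
      refine derivation_ext hs (fun j => ?_)
      have := hCe (Sum.inl ()) j
      simpa using this
    intro c
    exact congrArg (fun d : Derivation ℂ E (RatFunc E) => d c) h1
  have hδ : ∀ j : s, ∃ δ : Derivation ℂ E E, ∀ c : E, D (Sum.inr j) (RatFunc.C c) =
      RatFunc.C (δ c) := by
    intro j
    obtain ⟨δ, hδ⟩ := exists_derivation (M := E) hs (fun k => if j = k then (1 : E) else 0)
    refine ⟨δ, fun c => ?_⟩
    have h1 : (D (Sum.inr j)).compAlgebraMap E =
        (Algebra.linearMap E (RatFunc E)).compDer δ := by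
      refine derivation_ext hs (fun k => ?_)
      have h2 := hCe (Sum.inr j) k
      have h3 : ((Algebra.linearMap E (RatFunc E)).compDer δ) (k : E) =
          algebraMap E (RatFunc E) (δ (k : E)) := rfl
      rw [h3, hδ k]
      have h4 : ((D (Sum.inr j)).compAlgebraMap E) (k : E) = D (Sum.inr j) (RatFunc.C (e k)) := rfl
      rw [h4, h2]
      by_cases hjk : j = k
      · subst hjk; simp
      · have : (Sum.inr j : Unit ⊕ s) ≠ Sum.inr k := fun h => hjk (Sum.inr_injective h)
        rw [if_neg this, if_neg hjk, map_zero]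
    exact congrArg (fun d : Derivation ℂ E (RatFunc E) => d c) h1
  -- the Jacobian
  set V : Unit ⊕ s → Fin p → RatFunc E := fun i b => D i (φ (Fr.z b)) with hV
  have hVspan : ∀ g : Fin p → RatFunc E, (∀ j, ∑ b, g b * V j b = 0) → g = 0 :=
    fun g hg => jacobian hw D hD hYind hg
  have hV0 : V (Sum.inl ()) ≠ 0 := by
    intro h
    have h1 : D (Sum.inl ()) (φ y) = 0 := by
      have h2 := ratExt_apply (L := RatFunc E) Fr (D (Sum.inl ())) y
      rw [hφ] at h2
      rw [h2]
      refine Finset.sum_eq_zero fun b _ => ?_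
      have h3 : D (Sum.inl ()) (φ (Fr.z b)) = 0 := congrFun h b
      rw [hφ, h3, zero_mul]
    obtain ⟨c, hc⟩ := ddt_eq_zero hX1 hC0 h1
    exact hy c hc
  obtain ⟨σ, a₀, hσ1, hσ2, hσ3⟩ := exists_selection V hVspan (Sum.inl ()) hV0
  -- the derivations preserve the places
  have hpoly : ∀ i, ∀ p : E[X], ∃ q : E[X], D i (algebraMap E[X] (RatFunc E) p) =
      algebraMap E[X] (RatFunc E) q := by
    intro i p
    rcases i with u | j
    · exact ⟨_, ddt_poly hX1 hC0 p⟩
    · obtain ⟨δ, hδj⟩ := hδ j
      obtain ⟨q, hq, _⟩ := coeffwise_poly (hX0 j) hδj p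
      exact ⟨q, hq⟩
  have hval : ∀ p q : E[X], (p = 0 → q = 0) → q.natDegree ≤ p.natDegree →
      RatFunc.inftyValuation E (algebraMap E[X] (RatFunc E) q) ≤
        RatFunc.inftyValuation E (algebraMap E[X] (RatFunc E) p) := by
    intro p q h0 hle
    by_cases hq : q = 0
    · rw [hq, map_zero, map_zero]; exact zero_le
    · have hp : p ≠ 0 := fun h => hq (h0 h)
      rw [RatFunc.inftyValuation_apply, RatFunc.inftyValuation_apply,
        RatFunc.inftyValuation.polynomial E hq, RatFunc.inftyValuation.polynomial E hp]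
      exact exp_le_exp.2 (by exact_mod_cast hle)
  have hinf : ∀ i, ∀ p : E[X],
      RatFunc.inftyValuation E (D i (algebraMap E[X] (RatFunc E) p))
      ≤ RatFunc.inftyValuation E (algebraMap E[X] (RatFunc E) p) := by
    intro i p
    rcases i with u | j
    · have hu : (Sum.inl u : Unit ⊕ s) = Sum.inl () := rfl
      rw [hu, ddt_poly hX1 hC0]
      exact hval p _ (fun h => by rw [h, derivative_zero]) (natDegree_derivative_le p |>.trans
        (Nat.sub_le _ _))
    · obtain ⟨δ, hδj⟩ := hδ j
      by_cases hp : p = 0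
      · rw [hp, map_zero, map_zero, map_zero]
      · obtain ⟨q, hq, hqd⟩ := coeffwise_poly (hX0 j) hδj p
        rw [hq]
        exact hval p q (fun h => absurd h hp) hqd
  have hinf₀ : ∀ p : E[X],
      RatFunc.inftyValuation E (RatFunc.X * D (Sum.inl ()) (algebraMap E[X] (RatFunc E) p))
      ≤ RatFunc.inftyValuation E (algebraMap E[X] (RatFunc E) p) := by
    intro p
    rw [ddt_poly hX1 hC0, ← RatFunc.algebraMap_X, ← map_mul]
    refine hval p _ (fun h => by rw [h, derivative_zero, mul_zero]) ?_
    by_cases hp : derivative p = 0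
    · rw [hp, mul_zero, natDegree_zero]; exact Nat.zero_le _
    · have h1 : p.natDegree ≠ 0 := by
        intro h8
        apply hp
        rw [natDegree_eq_zero] at h8
        obtain ⟨c, hc⟩ := h8
        rw [← hc, derivative_C]
      have h2 := natDegree_derivative_lt h1
      have h3 := natDegree_mul_le (p := (X : E[X])) (q := derivative p)
      rw [natDegree_X] at h3
      omega
  -- the pullback
  set T' : TensorForm (RatFunc E) (M * p) := ratExt_form (L := RatFunc E) Fr T with hT'
  have hreg : IsRegular T' := ratExt_regular Fr T hT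
  have hplu : IsPluricanonical M p T' := pull_pluri Fr T hp
  have hne : T' ≠ 0 := ratExt_ne_zero Fr T hT0
  apply hne
  refine MultilinearMap.ext fun Δ => ?_
  rw [_root_.zero_apply]
  -- coordinates of the derivations
  have hcoord : ∀ v : Fin p → RatFunc E, ∃ c : Fin p → RatFunc E, ∀ b,
      v b = ∑ a, c a * V (σ a) b := by
    set A : Matrix (Fin p) (Fin p) (RatFunc E) := Matrix.of fun a b => V (σ a) b with hA
    have hdet : A.det ≠ 0 := by
      intro h
      obtain ⟨c, hc0, hc⟩ := Matrix.exists_mulVec_eq_zero_iff.2 h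
      apply hc0
      refine hσ3 c fun a => ?_
      have := congrFun hc a
      simp only [Matrix.mulVec, dotProduct, Pi.zero_apply] at this
      rw [← this]
      exact Finset.sum_congr rfl fun b _ => by rw [hA, Matrix.of_apply, mul_comm]
    intro v
    refine ⟨Matrix.vecMul v A⁻¹, fun b => ?_⟩
    have h1 : Matrix.vecMul (Matrix.vecMul v A⁻¹) A = v := by
      rw [Matrix.vecMul_vecMul, Matrix.nonsing_inv_mul A (Ne.isUnit hdet), Matrix.vecMul_one]
    conv_lhs => rw [← h1]
    rfl
  choose c hc using fun s' : Fin (M * p) => hcoord (fun b => Δ s' (φ (Fr.z b)))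
  have h1 : T' Δ = T' (fun s' => ∑ a, c s' a • D (σ a)) := by
    rw [hT', ratExt_form_apply, ratExt_form_apply]
    refine Finset.sum_congr rfl fun u _ => ?_
    congr 1
    refine Finset.prod_congr rfl fun s' _ => ?_
    rw [hφ, hc s' (u s'), ratExt_sum_apply]
    rfl
  rw [h1, MultilinearMap.map_sum]
  refine Finset.sum_eq_zero fun u _ => ?_
  rw [MultilinearMap.map_smul_univ]
  have h2 : T' (fun s' => D (σ (u s'))) = 0 := by
    by_cases hinj : Function.Injective fun j : Fin p => u (finProdFinEquiv (⟨0, hM⟩, j))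
    · obtain ⟨j, hj⟩ := (Finite.injective_iff_surjective.1 hinj) a₀
      refine form_eq_zero T' hreg _ (finProdFinEquiv (⟨0, hM⟩, j)) (fun a => hpoly _)
        (fun a => hinf _) ?_
      have h3 : u (finProdFinEquiv (⟨0, hM⟩, j)) = a₀ := hj
      rw [h3, hσ1]
      exact hinf₀
    · have h3 : ∃ j j' : Fin p, u (finProdFinEquiv (⟨0, hM⟩, j)) =
          u (finProdFinEquiv (⟨0, hM⟩, j')) ∧ j ≠ j' := by
        by_contra hcon
        push Not at hcon
        exact hinj fun j j' h => hcon j j' h
      obtain ⟨j, j', h4, h5⟩ := h3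
      exact hplu _ ⟨0, hM⟩ j j' h5 (by rw [h4])
  rw [h2, smul_zero]

end Pool.Agent.Work.Emb
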