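import Mathlib
import Pool.Agent.Work.MP_4329d7_ag_emb.NoForm
import Pool.Agent.Work.MP_4329d7_ag_emb.KJx
import Pool.Agent.Work.MP_4329d7_ag_rp.MainTE
import Pool.Agent.Work.MP_4329d7_ag_wrc.RelDefs

/-!
# Emb: the base of the maximal rationally connected fibration of an abelian cover of a product of
projective spaces branched along a simple normal crossing divisor: it is the field `KJ x J` of the
factors in a set `J`, and has nonzero pluricanonical forms with explicit exponents
-/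

namespace Pool.Agent.Work.Emb

open Pool.Agent.Work.Snc Pool.Agent.Work.Uni Pool.Agent.Work.WRC Pool.Agent.Work.MP_4329d7_ag.FF
open Pool.Agent.Work Pool.Agent.Work.RP

/-- if `K` is rationally connected over `L` then a subfield of `K` not contained in `L` is
uniruled -/
theorem uniruled_of_rcover {K : Type} [Field K] [Algebra ℂ K] {L : IntermediateField ℂ K}
    (h : RCOver L) {K₁ : Type} [Field K₁] [Algebra ℂ K₁] (f : K₁ →ₐ[ℂ] K)
    (hf : ¬ f.fieldRange ≤ L) : Uniruled K₁ := by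
  obtain ⟨E, _, _, φ, ψ, hE, hψ, hL, hdom⟩ := h
  obtain ⟨y, ⟨w, hw⟩, hyL⟩ := Set.not_subset.1 hf
  refine ⟨E, inferInstance, inferInstance, φ.comp f, hE, w, fun e he => ?_⟩
  have hφy : φ y = RatFunc.C e := by
    rw [← he, ← hw]
    rfl
  have hli : LinearIndependent L (![1, y] : Fin 2 → K) := by
    rw [LinearIndependent.pair_iff]
    intro s t hst
    by_cases ht : t = 0
    · subst ht
      rw [zero_smul, add_zero] at hst
      refine ⟨?_, rfl⟩
      have h1 : (s : K) * 1 = 0 := hst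
      rw [mul_one] at h1
      exact_mod_cast h1
    · exfalso
      apply hyL
      have ht' : (t : K) ≠ 0 := fun h => ht (by exact_mod_cast h)
      have h1 : (s : K) * 1 + (t : K) * y = 0 := hst
      have h2 : y = -((s : K) / (t : K)) := by
        field_simp
        linear_combination h1
      rw [h2]
      exact L.neg_mem (L.div_mem s.2 t.2)
  have h0 := hdom 2 ![1, y] ![y, -1] hli (by
    rw [Fin.sum_univ_two]
    simp only [Matrix.cons_val_zero, Matrix.cons_val_one, map_one, map_neg, hφy, hψ.2]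
    ring)
  have h1 := congrFun h0 1
  simp at h1

/-- algebraicity over a subfield and its image -/
theorem isAlgebraic_map_iff {A B : Type} [Field A] [Algebra ℂ A] [Field B] [Algebra ℂ B]
    (f : A →ₐ[ℂ] B) (F : IntermediateField ℂ A) (w : A) :
    IsAlgebraic (F.map f) (f w) ↔ IsAlgebraic F w :=
  isAlgebraic_ringHom_iff_of_comp_eq (F.equivMap f) f f.injective rfl

section

variable {K : Type} [Field K] [Algebra ℂ K] {I : Type} {n : I → ℕ}

/-- the fields `KJ` of the subfield `KJ x J₀` -/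
theorem mem_KJ_sub (x : (i : I) → Fin (n i) → K) (J₀ : Set I)
    (x' : (i : J₀) → Fin (n i) → KJ x J₀) (hx' : ∀ i j, ((x' i j : KJ x J₀) : K) = x i j)
    (J' : Set J₀) (w : KJ x J₀) :
    w ∈ KJ x' J' ↔ (w : K) ∈ KJ x (Subtype.val '' J') := by
  rw [mem_KJ, mem_KJ, ← isAlgebraic_map_iff (KJ x J₀).val]
  have h : (FJ x' J').map (KJ x J₀).val = FJ x (Subtype.val '' J') := by
    unfold FJ
    rw [IntermediateField.adjoin_map]
    congr 1
    ext y
    constructor
    · rintro ⟨_, ⟨i, hi, j, rfl⟩, rfl⟩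
      exact ⟨i, ⟨i, hi, rfl⟩, j, hx' i j⟩
    · rintro ⟨_, ⟨i, hi, rfl⟩, j, rfl⟩
      exact ⟨x' i j, ⟨i, hi, j, rfl⟩, hx' i j⟩
  rw [h]
  rfl

theorem KJ_mono (x : (i : I) → Fin (n i) → K) {J₁ J₂ : Set I} (h : J₁ ⊆ J₂) :
    KJ x J₁ ≤ KJ x J₂ := by
  have hF : FJ x J₁ ≤ FJ x J₂ := by
    unfold FJ
    refine IntermediateField.adjoin.mono ℂ _ _ ?_
    rintro _ ⟨i, hi, j, rfl⟩
    exact ⟨i, h hi, j, rfl⟩
  intro w hw
  rw [mem_KJ] at hw ⊢
  exact hw.ringHom_of_comp_eq (IntermediateField.inclusion hF) (RingHom.id K)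
    (IntermediateField.inclusion hF).injective rfl

theorem lift_KJ (x : (i : I) → Fin (n i) → K) (J₀ : Set I)
    (x' : (i : J₀) → Fin (n i) → KJ x J₀) (hx' : ∀ i j, ((x' i j : KJ x J₀) : K) = x i j)
    (J' : Set J₀) : IntermediateField.lift (KJ x' J') = KJ x (Subtype.val '' J') := by
  refine le_antisymm ?_ fun w hw => ?_
  · rintro _ ⟨w, hw, rfl⟩
    exact (mem_KJ_sub x J₀ x' hx' J' w).1 hw
  · have hw₀ : w ∈ KJ x J₀ := KJ_mono x (by rintro _ ⟨i, -, rfl⟩; exact i.2) hw
    exact (IntermediateField.mem_lift (⟨w, hw₀⟩ : KJ x J₀)).2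
      ((mem_KJ_sub x J₀ x' hx' J' ⟨w, hw₀⟩).2 hw)

end

/-- nonzero regular forms with all multiples of one explicit exponent -/
def Forms (K : Type) [Field K] [Algebra ℂ K] (m j : ℕ) : Prop :=
  ∃ M : ℕ, 0 < M ∧ M ≤ (7 * m) ^ (3 * 8 ^ m) ∧ ∀ l, 0 < l →
    ∃ T : TensorForm K (l * M * j), IsPluricanonical (l * M) j T ∧ IsRegular T ∧ T ≠ 0

theorem Forms.equiv {K₁ K₂ : Type} [Field K₁] [Algebra ℂ K₁] [Field K₂] [Algebra ℂ K₂]
    (e : K₁ ≃ₐ[ℂ] K₂) {m j : ℕ} (hj : Algebra.trdeg ℂ K₁ = j) (h : Forms K₁ m j) :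
    Forms K₂ m j := by
  obtain ⟨M, h1, h2, h3⟩ := h
  refine ⟨M, h1, h2, fun l hl => ?_⟩
  obtain ⟨T, h4, h5, h6⟩ := h3 l hl
  let _ : Algebra K₁ K₂ := (e : K₁ →+* K₂).toAlgebra
  have : IsScalarTower ℂ K₁ K₂ := IsScalarTower.of_algebraMap_eq fun c => (e.commutes c).symm
  exact CI.exists_pull (K := K₂) hj T h4 h5 h6

/-- the induction of `MP_4329d7_ag_rp/MainTE.lean`, with the fields `KJ` -/
theorem main_ind_J (m : ℕ) (hm0 : 0 < m) (r : ℕ) :
    ∀ (K : Type) [Field K] [Algebra ℂ K]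
    (I : Type) [Fintype I] [DecidableEq I] (n : I → ℕ) (E : Type) [Fintype E] [DecidableEq E]
    (F : E → MvPolynomial (Co I n) ℂ) (d : E → I → ℕ) (N : ℕ) (x : (i : I) → Fin (n i) → K)
    (S : Set (K × (E → ℕ))), SncData K I n E F d N x S → ∑ i, n i ≤ m → Fintype.card I ≤ r →
    ∀ K' : IntermediateField ℂ K, Algebra.EssFiniteType ℂ K' → ¬ Uniruled K' →
    ∃ J : Finset I, K' ≤ KJ x J ∧ Algebra.trdeg ℂ (KJ x J) = (∑ i ∈ J, n i : ℕ) ∧
      Forms (KJ x J) m (∑ i ∈ J, n i) := by
  classical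
  have key : ∀ (K : Type) [Field K] [Algebra ℂ K]
      (I : Type) [Fintype I] [DecidableEq I] (n : I → ℕ) (E : Type) [Fintype E] [DecidableEq E]
      (F : E → MvPolynomial (Co I n) ℂ) (d : E → I → ℕ) (N : ℕ) (x : (i : I) → Fin (n i) → K)
      (S : Set (K × (E → ℕ))), SncData K I n E F d N x S →
      (¬ ∀ M, 0 < M → M ≤ (7 * m) ^ (3 * 8 ^ m) → ∃ l, 0 < l ∧
        ∀ T : TensorForm K (l * M * ∑ i, n i), IsPluricanonical (l * M) (∑ i, n i) T →
          IsRegular T → T = 0) →
      ∀ K' : IntermediateField ℂ K, ∃ J : Finset I, K' ≤ KJ x J ∧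
        Algebra.trdeg ℂ (KJ x J) = (∑ i ∈ J, n i : ℕ) ∧ Forms (KJ x J) m (∑ i ∈ J, n i) := by
    intro K _ _ I _ _ n E _ _ F d N x S D hT K'
    push Not at hT
    obtain ⟨M, h1, h2, h3⟩ := hT
    have htop : (⊤ : IntermediateField ℂ K) = KJ x ((Finset.univ : Finset I) : Set I) := by
      rw [Finset.coe_univ]
      refine le_antisymm (fun w _ => ?_) le_top
      rw [mem_KJ]
      exact isAlgebraic_univ D w
    let e : K ≃ₐ[ℂ] KJ x ((Finset.univ : Finset I) : Set I) :=
      IntermediateField.topEquiv.symm.trans (IntermediateField.equivOfEq htop)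
    refine ⟨Finset.univ, ?_, ?_, Forms.equiv e (RP.trdeg_eq D) ⟨M, h1, h2, h3⟩⟩
    · rw [← htop]
      exact le_top
    · rw [← RP.trdeg_eq D]
      exact e.symm.trdeg_eq
  induction r with
  | zero =>
    intro K _ _ I _ _ n E _ _ F d N x S D hm hr K' hfg hK'
    refine key K I n E F d N x S D (fun hT => ?_) K'
    obtain ⟨k, _, _, _, X, hX⟩ := exists_generic (Co I n)
    obtain ⟨c, i₀, -⟩ := curve_of_not_starP D hX
      (not_starP_eff m hm0 K I n E F d N x S D hm hT k X)
    have : IsEmpty I := Fintype.card_eq_zero_iff.1 (Nat.le_zero.1 hr)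
    exact this.elim i₀
  | succ r ih =>
    intro K _ _ I _ _ n E _ _ F d N x S D hm hr K' hfg hK'
    by_cases hT : ∀ M, 0 < M → M ≤ (7 * m) ^ (3 * 8 ^ m) → ∃ l, 0 < l ∧
        ∀ T : TensorForm K (l * M * ∑ i, n i), IsPluricanonical (l * M) (∑ i, n i) T →
          IsRegular T → T = 0
    · obtain ⟨k, _, _, _, X, hX⟩ := exists_generic (Co I n)
      obtain ⟨c, i₀, hi₀⟩ := curve_of_not_starP D hX
        (not_starP_eff m hm0 K I n E F d N x S D hm hT k X)
      set J₀ : Set I := fixed F d N S with hJ₀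
      have hi₀J : i₀ ∉ J₀ := fun h => absurd (h k X hX c) hi₀.ne'
      have hle : K' ≤ KJ x J₀ := by
        intro u hu
        rw [mem_KJ]
        exact alg_of_not_uniruled D K' hK' u hu
      obtain ⟨E', _, F', d', x', S', D', hx'⟩ := exists_data_x D J₀
      have hcard : Fintype.card J₀ ≤ r := by
        have h1 : Fintype.card J₀ < Fintype.card I :=
          Fintype.card_subtype_lt (p := fun i => i ∈ J₀) hi₀J
        omega
      have hsum : ∑ i : J₀, n i ≤ m := by
        refine le_trans ?_ hm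
        have h2 : ∑ i : J₀, n i = ∑ i ∈ Finset.univ.filter (· ∈ J₀), n i :=
          (Finset.sum_subtype _ (fun i => by simp) n).symm
        rw [h2]
        exact Finset.sum_le_univ_sum_of_nonneg (fun _ => Nat.zero_le _)
      obtain ⟨J', hJ', htr, hf⟩ := ih (KJ x J₀) J₀ (fun i => n i) E' F' d' N
        x' S' D' hsum hcard (IntermediateField.restrict hle)
        ((Algebra.EssFiniteType.iff_of_algEquiv (IntermediateField.restrictAlgEquiv hle)).1 hfg)
        (fun h => hK' (uniruled_of_equiv (IntermediateField.restrictAlgEquiv hle).symm h))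
      have hset : ((J'.map ⟨Subtype.val, Subtype.val_injective⟩ : Finset I) : Set I) =
          Subtype.val '' (J' : Set J₀) := by
        rw [Finset.coe_map]
        rfl
      have hlift : IntermediateField.lift (KJ x' (J' : Set J₀)) =
          KJ x ((J'.map ⟨Subtype.val, Subtype.val_injective⟩ : Finset I) : Set I) := by
        rw [hset]
        exact lift_KJ x J₀ x' hx' J'
      let e : KJ x' (J' : Set J₀) ≃ₐ[ℂ]
          KJ x ((J'.map ⟨Subtype.val, Subtype.val_injective⟩ : Finset I) : Set I) :=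
        (IntermediateField.liftAlgEquiv _).trans (IntermediateField.equivOfEq hlift)
      have hsum' : ∑ i ∈ J'.map ⟨Subtype.val, Subtype.val_injective⟩, n i = ∑ i ∈ J', n i := by
        rw [Finset.sum_map]
        rfl
      refine ⟨J'.map ⟨Subtype.val, Subtype.val_injective⟩, fun w hw => ?_, ?_, ?_⟩
      · rw [← hlift]
        exact (IntermediateField.mem_lift (⟨w, hle hw⟩ : KJ x J₀)).2
          (hJ' ((IntermediateField.mem_restrict hle ⟨w, hle hw⟩).2 hw))
      · rw [hsum', ← htr]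
        exact e.symm.trdeg_eq
      · rw [hsum']
        exact Forms.equiv e htr hf
    · exact key K I n E F d N x S D hT K'

/-- the base of the maximal rationally connected fibration is given by a set of factors and has
pluricanonical forms -/
theorem forms_of_rcover (m : ℕ) (hm0 : 0 < m)
    (K : Type) [Field K] [Algebra ℂ K] [Algebra.EssFiniteType ℂ K]
    (I : Type) [Fintype I] [DecidableEq I] (n : I → ℕ) (E : Type) [Fintype E] [DecidableEq E]
    (F : E → MvPolynomial (Co I n) ℂ) (d : E → I → ℕ) (N : ℕ) (x : (i : I) → Fin (n i) → K)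
    (S : Set (K × (E → ℕ))) (D : SncData K I n E F d N x S) (hm : ∑ i, n i ≤ m)
    (L : IntermediateField ℂ K) (hL : RCOver L) (hLU : ¬ Uniruled L) :
    ∃ J : Finset I, L = KJ x J ∧ Algebra.trdeg ℂ (KJ x J) = (∑ i ∈ J, n i : ℕ) ∧
      Forms (KJ x J) m (∑ i ∈ J, n i) := by
  classical
  obtain ⟨J, hle, htr, hf⟩ := main_ind_J m hm0 _ K I n E F d N x S D hm le_rfl L
    (essFiniteType_sub L) hLU
  refine ⟨J, le_antisymm hle ?_, htr, hf⟩
  by_contra hcon
  have hU : Uniruled (KJ x J) := by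
    refine uniruled_of_rcover hL (KJ x J).val ?_
    rwa [IntermediateField.fieldRange_val]
  obtain ⟨M, h1, h2, h3⟩ := hf
  obtain ⟨T, h4, h5, h6⟩ := h3 1 one_pos
  exact h6 (no_forms hU (Nat.mul_pos one_pos h1) htr T h4 h5)

end Pool.Agent.Work.Emb
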