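import Mathlib
import Pool.Agent.Work.MP_4329d7_ag_emb.EmbSnc
import Pool.Agent.Work.MP_4329d7_ag_emb.MrcSnc
import Pool.Agent.Work.MP_4329d7_ag_wrc.RelFinal

/-!
# Emb: the maximal rationally connected fibration of an abelian cover of a product of projective
spaces branched along a simple normal crossing divisor, with explicit exponents for the
pluricanonical forms on its base
-/

namespace Pool.Agent.Work.Emb

open Pool.Agent.Work.Snc Pool.Agent.Work.Uni Pool.Agent.Work.WRC Pool.Agent.Work.MP_4329d7_ag.FF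
open Pool.Agent.Work Pool.Agent.Work.RP Pool.Agent.Work.CI Pool.Agent.Work.CW

theorem mrc_snc (m : ℕ) (hm0 : 0 < m)
    (K : Type) [Field K] [Algebra ℂ K] [Algebra.EssFiniteType ℂ K]
    (I : Type) [Fintype I] [DecidableEq I] (n : I → ℕ) (E : Type) [Fintype E] [DecidableEq E]
    (F : E → MvPolynomial (Co I n) ℂ) (d : E → I → ℕ) (N : ℕ) (x : (i : I) → Fin (n i) → K)
    (S : Set (K × (E → ℕ))) (D : SncData K I n E F d N x S) (hm : ∑ i, n i ≤ m) :
    ∃ J : Finset I, RCOver (KJ x J) ∧ ¬ Uniruled (KJ x J) ∧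
      Algebra.trdeg ℂ (KJ x J) = (∑ i ∈ J, n i : ℕ) ∧ Forms (KJ x J) m (∑ i ∈ J, n i) := by
  obtain ⟨t, f, nd, Dt⟩ := emb_snc D
  obtain ⟨e, χ, hχ, hRC, hU, -⟩ :=
    mrc_main _ K _ E t f nd Dt.ne Dt.gen Dt.eq Dt.trdeg Dt.dim
  obtain ⟨J, hJ, htr, hf⟩ :=
    forms_of_rcover m hm0 K I n E F d N x S D hm (subF t χ) hRC hU
  rw [hJ] at hRC hU
  exact ⟨J, hRC, hU, htr, hf⟩

end Pool.Agent.Work.Emb
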